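import Mathlib

set_option autoImplicit false
open MeasureTheory Filter Topology Set

namespace Pool.Agent.X84.OverRec

variable {X : Type*} [MeasurableSpace X]

/-- bounded and measurable -/
def Bm (f : X → ℝ) : Prop := Measurable f ∧ ∃ b : ℝ, ∀ x, |f x| ≤ b

lemma Bm.integrable {μ : Measure X} [IsProbabilityMeasure μ] {f : X → ℝ} (hf : Bm f) :
    Integrable f μ := by
  obtain ⟨hm, b, hb⟩ := hf
  exact Integrable.of_bound hm.aestronglyMeasurable b (Eventually.of_forall hb)

lemma Bm.mul {f g : X → ℝ} (hf : Bm f) (hg : Bm g) : Bm (fun x => f x * g x) := by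
  obtain ⟨hm, b, hb⟩ := hf
  obtain ⟨hm', b', hb'⟩ := hg
  refine ⟨hm.mul hm', b * b', fun x => ?_⟩
  rw [abs_mul]
  exact mul_le_mul (hb x) (hb' x) (abs_nonneg _) ((abs_nonneg _).trans (hb x))

lemma Bm.add {f g : X → ℝ} (hf : Bm f) (hg : Bm g) : Bm (fun x => f x + g x) := by
  obtain ⟨hm, b, hb⟩ := hf
  obtain ⟨hm', b', hb'⟩ := hg
  exact ⟨hm.add hm', b + b', fun x => (abs_add_le _ _).trans (add_le_add (hb x) (hb' x))⟩

lemma Bm.sub {f g : X → ℝ} (hf : Bm f) (hg : Bm g) : Bm (fun x => f x - g x) := by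
  obtain ⟨hm, b, hb⟩ := hf
  obtain ⟨hm', b', hb'⟩ := hg
  exact ⟨hm.sub hm', b + b', fun x => (abs_sub _ _).trans (add_le_add (hb x) (hb' x))⟩

lemma Bm.const (c : ℝ) : Bm (fun _ : X => c) := ⟨measurable_const, |c|, fun _ => le_rfl⟩

lemma Bm.comp {f : X → ℝ} (hf : Bm f) {S : X → X} (hS : Measurable S) : Bm (fun x => f (S x)) :=
  ⟨hf.1.comp hS, hf.2.choose, fun x => hf.2.choose_spec (S x)⟩

lemma Bm.abs {f : X → ℝ} (hf : Bm f) : Bm (fun x => |f x|) :=
  ⟨by simpa using hf.1.norm, hf.2.choose, fun x => by simpa using hf.2.choose_spec x⟩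

lemma Bm.sum {ι : Type*} (s : Finset ι) {f : ι → X → ℝ} (hf : ∀ i ∈ s, Bm (f i)) :
    Bm (fun x => ∑ i ∈ s, f i x) := by
  classical
  induction s using Finset.induction_on with
  | empty => simpa using Bm.const (X := X) 0
  | insert a s ha ih =>
    have h1 := (hf a (Finset.mem_insert_self a s)).add
      (ih fun i hi => hf i (Finset.mem_insert_of_mem hi))
    simpa [Finset.sum_insert ha] using h1

set_option linter.unusedSectionVars false
/-- real indicator -/
noncomputable def ind (A : Set X) : X → ℝ := A.indicator (fun _ => (1 : ℝ))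

lemma Bm.ind {A : Set X} (hA : MeasurableSet A) : Bm (ind A) := by
  refine ⟨measurable_const.indicator hA, 1, fun x => ?_⟩
  by_cases h : x ∈ A <;> simp [OverRec.ind, h]

lemma ind_abs_le (A : Set X) (x : X) : |ind A x| ≤ 1 := by
  by_cases h : x ∈ A <;> simp [OverRec.ind, h]

lemma integral_ind {μ : Measure X} {A : Set X} (hA : MeasurableSet A) :
    ∫ x, ind A x ∂μ = μ.real A := by
  simp [ind, integral_indicator, hA]

lemma ind_mul_ind {A B : Set X} (S : X → X) (x : X) :
    ind A x * ind B (S x) = ind (A ∩ S ⁻¹' B) x := by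
  by_cases h : x ∈ A <;> by_cases h' : S x ∈ B <;> simp [ind, h, h']

/-- covariance along `T^n` -/
noncomputable def C (μ : Measure X) (T : X → X) (n : ℕ) (f g : X → ℝ) : ℝ :=
  ∫ x, f x * g (T^[n] x) ∂μ - (∫ x, f x ∂μ) * ∫ x, g x ∂μ

section
variable {μ : Measure X} [IsProbabilityMeasure μ] {T : X → X}

lemma integral_comp_iterate (hT : MeasurePreserving T μ μ) (n : ℕ) {f : X → ℝ} (hf : Bm f) :
    ∫ x, f (T^[n] x) ∂μ = ∫ x, f x ∂μ := by
  have h := hT.iterate n
  have h2 := h.map_eq
  calc ∫ x, f (T^[n] x) ∂μ = ∫ x, f x ∂(Measure.map (T^[n]) μ) := by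
        rw [integral_map h.measurable.aemeasurable hf.1.aestronglyMeasurable]
    _ = _ := by rw [h2]

lemma C_add_smul (hT : MeasurePreserving T μ μ) (n : ℕ) {f u : X → ℝ} (hf : Bm f) (hu : Bm u)
    (e : ℝ) :
    C μ T n (fun x => f x + e * u x) (fun x => f x + e * u x)
      = C μ T n f f + e * (C μ T n f u + C μ T n u f) + e ^ 2 * C μ T n u u := by
  have hTn := (hT.iterate n).measurable
  have h1 := (hf.mul (hf.comp hTn)).integrable (μ := μ)
  have h2 := (hf.mul (hu.comp hTn)).integrable (μ := μ)
  have h3 := (hu.mul (hf.comp hTn)).integrable (μ := μ)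
  have h4 := (hu.mul (hu.comp hTn)).integrable (μ := μ)
  have e1 : ∫ x, (f x + e * u x) ∂μ = ∫ x, f x ∂μ + e * ∫ x, u x ∂μ := by
    rw [integral_add (hf.integrable) ((hu.integrable).const_mul e), integral_const_mul]
  have e2 : ∫ x, (f x + e * u x) * (f (T^[n] x) + e * u (T^[n] x)) ∂μ
      = ∫ x, f x * f (T^[n] x) ∂μ + e * (∫ x, f x * u (T^[n] x) ∂μ + ∫ x, u x * f (T^[n] x) ∂μ)
        + e ^ 2 * ∫ x, u x * u (T^[n] x) ∂μ := by
    have : (fun x => (f x + e * u x) * (f (T^[n] x) + e * u (T^[n] x)))
        = fun x => (f x * f (T^[n] x) + e * (f x * u (T^[n] x) + u x * f (T^[n] x)))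
          + e ^ 2 * (u x * u (T^[n] x)) := by
      funext x; ring
    have i23 : Integrable (fun x => f x * u (T^[n] x) + u x * f (T^[n] x)) μ := h2.add h3
    have i23e : Integrable (fun x => e * (f x * u (T^[n] x) + u x * f (T^[n] x))) μ :=
      i23.const_mul e
    have i123 : Integrable (fun x => f x * f (T^[n] x)
        + e * (f x * u (T^[n] x) + u x * f (T^[n] x))) μ := h1.add i23e
    rw [this, integral_add i123 (h4.const_mul _),
      integral_add h1 i23e, integral_const_mul, integral_const_mul,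
      integral_add h2 h3]
  unfold C
  rw [e1, e2]; ring

lemma C_add_left (hT : MeasurePreserving T μ μ) (n : ℕ) {f u g : X → ℝ} (hf : Bm f) (hu : Bm u)
    (hg : Bm g) (e : ℝ) :
    C μ T n (fun x => f x + e * u x) g = C μ T n f g + e * C μ T n u g := by
  have hTn := (hT.iterate n).measurable
  have h1 := (hf.mul (hg.comp hTn)).integrable (μ := μ)
  have h2 := (hu.mul (hg.comp hTn)).integrable (μ := μ)
  have e1 : ∫ x, (f x + e * u x) ∂μ = ∫ x, f x ∂μ + e * ∫ x, u x ∂μ := by
    rw [integral_add (hf.integrable) ((hu.integrable).const_mul e), integral_const_mul]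
  have e2 : ∫ x, (f x + e * u x) * g (T^[n] x) ∂μ
      = ∫ x, f x * g (T^[n] x) ∂μ + e * ∫ x, u x * g (T^[n] x) ∂μ := by
    have : (fun x => (f x + e * u x) * g (T^[n] x))
        = fun x => f x * g (T^[n] x) + e * (u x * g (T^[n] x)) := by
      funext x; ring
    rw [this, integral_add h1 (h2.const_mul e), integral_const_mul]
  unfold C
  rw [e1, e2]; ring

lemma C_add_right (hT : MeasurePreserving T μ μ) (n : ℕ) {f u g : X → ℝ} (hf : Bm f) (hu : Bm u)
    (hg : Bm g) (e : ℝ) :
    C μ T n g (fun x => f x + e * u x) = C μ T n g f + e * C μ T n g u := by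
  have hTn := (hT.iterate n).measurable
  have h1 := (hg.mul (hf.comp hTn)).integrable (μ := μ)
  have h2 := (hg.mul (hu.comp hTn)).integrable (μ := μ)
  have e1 : ∫ x, (f x + e * u x) ∂μ = ∫ x, f x ∂μ + e * ∫ x, u x ∂μ := by
    rw [integral_add (hf.integrable) ((hu.integrable).const_mul e), integral_const_mul]
  have e2 : ∫ x, g x * (f (T^[n] x) + e * u (T^[n] x)) ∂μ
      = ∫ x, g x * f (T^[n] x) ∂μ + e * ∫ x, g x * u (T^[n] x) ∂μ := by
    have : (fun x => g x * (f (T^[n] x) + e * u (T^[n] x)))
        = fun x => g x * f (T^[n] x) + e * (g x * u (T^[n] x)) := by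
      funext x; ring
    rw [this, integral_add h1 (h2.const_mul e), integral_const_mul]
  unfold C
  rw [e1, e2]; ring

lemma C_ind_ind (hT : MeasurePreserving T μ μ) (n : ℕ) {A B : Set X} (hA : MeasurableSet A)
    (hB : MeasurableSet B) :
    C μ T n (ind A) (ind B) = μ.real (A ∩ T^[n] ⁻¹' B) - μ.real A * μ.real B := by
  have hTn := (hT.iterate n).measurable
  unfold C
  rw [integral_ind hA, integral_ind hB]
  congr 1
  rw [← integral_ind (hA.inter (hTn hB))]
  exact integral_congr_ae (Eventually.of_forall fun x => ind_mul_ind _ _)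

/-- the mixing hypothesis in real form -/
def Mix (μ : Measure X) (T : X → X) : Prop :=
  ∀ A B : Set X, MeasurableSet A → MeasurableSet B →
        Tendsto (fun n : ℕ => μ (A ∩ T^[n] ⁻¹' B)) atTop (𝓝 (μ A * μ B))

lemma Mix.tendsto_C (hT : MeasurePreserving T μ μ) (hM : Mix μ T) {A B : Set X}
    (hA : MeasurableSet A) (hB : MeasurableSet B) :
    Tendsto (fun n => C μ T n (ind A) (ind B)) atTop (𝓝 0) := by
  have h := hM A B hA hB
  have h2 : Tendsto (fun n : ℕ => (μ (A ∩ T^[n] ⁻¹' B)).toReal) atTop (𝓝 (μ A * μ B).toReal) :=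
    (ENNReal.tendsto_toReal (ENNReal.mul_ne_top (measure_ne_top _ _) (measure_ne_top _ _))).comp h
  rw [ENNReal.toReal_mul] at h2
  have h3 := h2.sub_const ((μ A).toReal * (μ B).toReal)
  rw [sub_self] at h3
  refine h3.congr fun n => ?_
  rw [C_ind_ind hT n hA hB]; rfl

/-! ### small sets -/

lemma exists_small (hM : Mix μ T) (hT : MeasurePreserving T μ μ)
    (hne : ∃ A : Set X, MeasurableSet A ∧ 0 < μ A ∧ μ A < 1) {η : ℝ} (hη : 0 < η) :
    ∃ E : Set X, MeasurableSet E ∧ 0 < μ.real E ∧ μ.real E < η := by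
  obtain ⟨A, hA, h0, h1⟩ := hne
  have h0' : 0 < μ.real A := ENNReal.toReal_pos h0.ne' (measure_ne_top _ _)
  have h1' : μ.real A < 1 := by
    have := (ENNReal.toReal_lt_toReal (measure_ne_top μ A) ENNReal.one_ne_top).2 h1
    rw [ENNReal.toReal_one] at this
    exact this
  set r := μ.real A with hr
  set ρ := (1 + r) / 2 with hρ
  have hρ1 : ρ < 1 := by rw [hρ]; linarith
  have hρ0 : 0 < ρ := by rw [hρ]; linarith
  have key : ∀ k : ℕ, ∃ E : Set X, MeasurableSet E ∧ 0 < μ.real E ∧ μ.real E ≤ r ∧
      μ.real E ≤ ρ ^ k := by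
    intro k
    induction k with
    | zero => exact ⟨A, hA, h0', le_rfl, by rw [pow_zero]; exact h1'.le⟩
    | succ k ih =>
      obtain ⟨E, hE, e0, e1, e2⟩ := ih
      have ht := hM.tendsto_C hT hE hE
      have hpos : 0 < min (μ.real E * μ.real E) (μ.real E * (ρ - r)) := by
        apply lt_min (mul_pos e0 e0)
        apply mul_pos e0
        rw [hρ]; linarith
      have hev := (tendsto_order.1 ht).1 _ (neg_lt_zero.2 hpos)
      have hev2 := (tendsto_order.1 ht).2 _ hpos
      obtain ⟨n, hn1, hn2⟩ := (hev.and hev2).exists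
      rw [C_ind_ind hT n hE hE] at hn1 hn2
      refine ⟨E ∩ T^[n] ⁻¹' E, hE.inter ((hT.iterate n).measurable hE), ?_, ?_, ?_⟩
      · have := min_le_left (μ.real E * μ.real E) (μ.real E * (ρ - r))
        linarith
      · exact (measureReal_mono inter_subset_left).trans e1
      · have h3 := min_le_right (μ.real E * μ.real E) (μ.real E * (ρ - r))
        have h4 : μ.real (E ∩ T^[n] ⁻¹' E) ≤ μ.real E * ρ := by
          nlinarith
        calc μ.real (E ∩ T^[n] ⁻¹' E) ≤ μ.real E * ρ := h4
          _ ≤ ρ ^ k * ρ := by gcongr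
          _ = ρ ^ (k + 1) := (pow_succ _ _).symm
  obtain ⟨k, hk⟩ := exists_pow_lt_of_lt_one hη hρ1
  obtain ⟨E, hE, e0, _, e2⟩ := key k
  exact ⟨E, hE, e0, e2.trans_lt hk⟩

/-- `⋃_{j<M} T^{-j} E` -/
def tower (T : X → X) (E : Set X) (M : ℕ) : Set X := ⋃ j ∈ Finset.range M, T^[j] ⁻¹' E

lemma mem_tower {E : Set X} {M : ℕ} {x : X} : x ∈ tower T E M ↔ ∃ j < M, T^[j] x ∈ E := by
  simp [tower]

lemma tower_meas (hT : Measurable T) {E : Set X} (hE : MeasurableSet E) (M : ℕ) :
    MeasurableSet (tower T E M) := by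
  unfold tower
  exact Finset.measurableSet_biUnion _ fun j _ => (hT.iterate j) hE

lemma tower_real_succ (hT : MeasurePreserving T μ μ) {E : Set X} (hE : MeasurableSet E) (M : ℕ) :
    μ.real (tower T E (M + 1)) ≤ μ.real (tower T E M) + μ.real E := by
  have h : tower T E (M + 1) ⊆ tower T E M ∪ T^[M] ⁻¹' E := by
    intro x hx
    rw [mem_tower] at hx
    obtain ⟨j, hj, hx⟩ := hx
    rcases Nat.lt_succ_iff_lt_or_eq.1 hj with h | h
    · exact Or.inl (mem_tower.2 ⟨j, h, hx⟩)
    · subst h; exact Or.inr hx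
  calc μ.real (tower T E (M + 1)) ≤ μ.real (tower T E M ∪ T^[M] ⁻¹' E) := measureReal_mono h
    _ ≤ μ.real (tower T E M) + μ.real (T^[M] ⁻¹' E) := measureReal_union_le _ _
    _ = _ := by
      rw [(hT.iterate M).measureReal_preimage hE.nullMeasurableSet]

lemma tower_tendsto (hM : Mix μ T) (hT : MeasurePreserving T μ μ) {E : Set X}
    (hE : MeasurableSet E) (h0 : 0 < μ.real E) :
    Tendsto (fun M => μ.real (tower T E M)) atTop (𝓝 1) := by
  set U := ⋃ M, tower T E M with hU
  have hUm : MeasurableSet U := MeasurableSet.iUnion fun M => tower_meas hT.measurable hE M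
  have hmono : Monotone (tower T E) := by
    intro a b hab x hx
    rw [mem_tower] at hx ⊢
    obtain ⟨j, hj, hx⟩ := hx
    exact ⟨j, hj.trans_le hab, hx⟩
  have hsub : ∀ n, T^[n] ⁻¹' U ⊆ U := by
    intro n x hx
    simp only [hU, mem_preimage, mem_iUnion, mem_tower] at hx ⊢
    obtain ⟨M, j, hj, hx⟩ := hx
    refine ⟨M + n, j + n, by omega, ?_⟩
    rw [Function.iterate_add_apply]; exact hx
  have h1 := hM.tendsto_C hT hUm.compl hUm
  have h2 : ∀ n, C μ T n (ind Uᶜ) (ind U) = - (μ.real Uᶜ * μ.real U) := by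
    intro n
    rw [C_ind_ind hT n hUm.compl hUm]
    have : Uᶜ ∩ T^[n] ⁻¹' U = ∅ := by
      ext x; constructor
      · rintro ⟨hx1, hx2⟩; exact hx1 (hsub n hx2)
      · intro h; exact h.elim
    rw [this]; simp
  simp only [h2] at h1
  have h3 : μ.real Uᶜ * μ.real U = 0 := by
    have := tendsto_nhds_unique h1 tendsto_const_nhds
    linarith
  have hEU : μ.real E ≤ μ.real U := by
    have hsE : E ⊆ U := by
      intro x hx
      simp only [hU, mem_iUnion, mem_tower]
      exact ⟨1, 0, by norm_num, hx⟩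
    exact measureReal_mono hsE (measure_ne_top μ U)
  have h4 : μ.real Uᶜ = 0 := by
    rcases mul_eq_zero.1 h3 with h | h
    · exact h
    · linarith
  have h5 : μ.real U = 1 := by
    have := probReal_compl_eq_one_sub (μ := μ) hUm
    linarith
  have h6 : Tendsto (fun M => μ (tower T E M)) atTop (𝓝 (μ U)) :=
    tendsto_measure_iUnion_atTop hmono
  have h7 := (ENNReal.tendsto_toReal (measure_ne_top μ U)).comp h6
  have h8 : (μ U).toReal = 1 := h5
  rw [h8] at h7
  exact h7

/-- near invariance of towers -/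
lemma tower_near (hT : MeasurePreserving T μ μ) {E : Set X} (hE : MeasurableSet E) (M j : ℕ) :
    ∫ x, |ind (tower T E M) (T^[j] x) - ind (tower T E M) x| ∂μ ≤ 2 * j * μ.real E := by
  have hA := tower_meas hT.measurable hE M
  have hb : ∀ x, |ind (tower T E M) (T^[j] x) - ind (tower T E M) x|
      ≤ ∑ i ∈ Finset.range j, ind E (T^[i] x) + ∑ i ∈ Finset.range j, ind E (T^[M + i] x) := by
    intro x
    have hnn1 : ∀ i ∈ Finset.range j, 0 ≤ ind E (T^[i] x) := fun i _ => by
      by_cases h : T^[i] x ∈ E <;> simp [ind, h]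
    have hnn2 : ∀ i ∈ Finset.range j, 0 ≤ ind E (T^[M + i] x) := fun i _ => by
      by_cases h : T^[M + i] x ∈ E <;> simp [ind, h]
    have s1 := Finset.sum_nonneg hnn1
    have s2 := Finset.sum_nonneg hnn2
    by_cases h1 : T^[j] x ∈ tower T E M <;> by_cases h2 : x ∈ tower T E M
    · simp only [ind, h1, h2, indicator_of_mem, sub_self, abs_zero]
      exact add_nonneg s1 s2
    · -- T^[j+i] x ∈ E, with i < M, and j + i ≥ M
      obtain ⟨i, hi, hx⟩ := mem_tower.1 h1
      rw [← Function.iterate_add_apply] at hx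
      have hge : M ≤ i + j := by
        by_contra hlt
        exact h2 (mem_tower.2 ⟨i + j, by omega, hx⟩)
      have hmem : i + j - M ∈ Finset.range j := Finset.mem_range.2 (by omega)
      have h3 : (1 : ℝ) ≤ ∑ i ∈ Finset.range j, ind E (T^[M + i] x) := by
        refine le_trans ?_ (Finset.single_le_sum hnn2 hmem)
        have : M + (i + j - M) = i + j := by omega
        simp only [this]
        simp [ind, hx]
      have : |ind (tower T E M) (T^[j] x) - ind (tower T E M) x| = 1 := by
        simp [ind, h1, h2]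
      linarith
    · obtain ⟨i, hi, hx⟩ := mem_tower.1 h2
      have hlt : i < j := by
        by_contra hge
        push Not at hge
        refine h1 (mem_tower.2 ⟨i - j, by omega, ?_⟩)
        rw [← Function.iterate_add_apply]
        have : i - j + j = i := by omega
        rw [this]; exact hx
      have h3 : (1 : ℝ) ≤ ∑ i ∈ Finset.range j, ind E (T^[i] x) := by
        refine le_trans ?_ (Finset.single_le_sum hnn1 (Finset.mem_range.2 hlt))
        simp [ind, hx]
      have : |ind (tower T E M) (T^[j] x) - ind (tower T E M) x| = 1 := by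
        simp [ind, h1, h2]
      linarith
    · have : |ind (tower T E M) (T^[j] x) - ind (tower T E M) x| = 0 := by
        simp [ind, h1, h2]
      linarith
  have hBE := Bm.ind hE
  have hi1 : Integrable (fun x => ∑ i ∈ Finset.range j, ind E (T^[i] x)) μ :=
    (Bm.sum _ fun i _ => hBE.comp (hT.iterate i).measurable).integrable
  have hi2 : Integrable (fun x => ∑ i ∈ Finset.range j, ind E (T^[M + i] x)) μ :=
    (Bm.sum _ fun i _ => hBE.comp (hT.iterate (M + i)).measurable).integrable
  calc ∫ x, |ind (tower T E M) (T^[j] x) - ind (tower T E M) x| ∂μ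
      ≤ ∫ x, (∑ i ∈ Finset.range j, ind E (T^[i] x) + ∑ i ∈ Finset.range j, ind E (T^[M + i] x)) ∂μ := by
        apply integral_mono _ (hi1.add hi2) hb
        exact (((Bm.ind hA).comp (hT.iterate j).measurable).sub (Bm.ind hA)).abs.integrable
    _ = 2 * j * μ.real E := by
        rw [integral_add hi1 hi2, integral_finsetSum, integral_finsetSum]
        · simp only [integral_comp_iterate hT _ hBE, integral_ind hE, Finset.sum_const,
            Finset.card_range, nsmul_eq_mul]
          ring
        · intro i _; exact (hBE.comp (hT.iterate (M + i)).measurable).integrable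
        · intro i _; exact (hBE.comp (hT.iterate i).measurable).integrable

/-! ### averages along a sparse progression are small in `L¹` -/

lemma exists_avg_small (hT : MeasurePreserving T μ μ) {h : X → ℝ} (hh : Bm h)
    (hc : Tendsto (fun n => ∫ x, h x * h (T^[n] x) ∂μ) atTop (𝓝 0)) {δ : ℝ} (hδ : 0 < δ) :
    ∃ m p : ℕ, 0 < m ∧ ∫ x, |∑ i ∈ Finset.range m, h (T^[i * p] x)| ∂μ ≤ δ * m := by
  obtain ⟨hm, b, hb⟩ := id hh
  have hb0 : 0 ≤ b := by
    by_contra hneg
    push Not at hneg
    have hX : Nonempty X := by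
      by_contra hX
      rw [not_nonempty_iff] at hX
      have : μ univ = 0 := by rw [univ_eq_empty_iff.2 hX]; simp
      rw [measure_univ] at this
      exact one_ne_zero this
    obtain ⟨x⟩ := hX
    exact absurd ((abs_nonneg _).trans (hb x)) (not_le.2 hneg)
  -- choose p
  have hδ2 : 0 < δ ^ 2 / 2 := by positivity
  obtain ⟨p, hp⟩ := eventually_atTop.1 ((tendsto_order.1 hc).2 _ hδ2)
  obtain ⟨m, hmm⟩ := exists_nat_gt (2 * b ^ 2 / δ ^ 2)
  have hm0 : 0 < m := by
    have : (0 : ℝ) ≤ 2 * b ^ 2 / δ ^ 2 := by positivity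
    exact_mod_cast this.trans_lt hmm
  refine ⟨m, p, hm0, ?_⟩
  have hcomp : ∀ i, Bm (fun x => h (T^[i * p] x)) := fun i => hh.comp (hT.iterate (i * p)).measurable
  set S : X → ℝ := fun x => ∑ i ∈ Finset.range m, h (T^[i * p] x) with hS
  have hSB : Bm S := Bm.sum _ fun i _ => hcomp i
  -- correlations
  have hcorr : ∀ i j, i < j → ∫ x, h (T^[i * p] x) * h (T^[j * p] x) ∂μ ≤ δ ^ 2 / 2 := by
    intro i j hij
    have hle : i * p ≤ j * p := Nat.mul_le_mul_right p hij.le
    have e1 : ∀ x, h (T^[i * p] x) * h (T^[j * p] x)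
        = (fun y => h y * h (T^[(j - i) * p] y)) (T^[i * p] x) := by
      intro x
      simp only
      rw [← Function.iterate_add_apply]
      have : (j - i) * p + i * p = j * p := by
        rw [← Nat.add_mul]; congr 1; omega
      rw [this]
    simp only [e1]
    rw [integral_comp_iterate hT (i * p) (hh.mul (hh.comp (hT.iterate ((j - i) * p)).measurable))]
    rcases Nat.eq_zero_or_pos p with hp0 | hp0
    · exact (hp _ (by rw [hp0]; exact Nat.zero_le _)).le
    · exact (hp _ (Nat.le_mul_of_pos_left p (by omega))).le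
  have hdiag : ∀ i, ∫ x, h (T^[i * p] x) * h (T^[i * p] x) ∂μ ≤ b ^ 2 := by
    intro i
    calc ∫ x, h (T^[i * p] x) * h (T^[i * p] x) ∂μ ≤ ∫ _, b ^ 2 ∂μ := by
          apply integral_mono ((hcomp i).mul (hcomp i)).integrable (integrable_const _)
          intro x
          have := hb (T^[i * p] x)
          simp only
          rw [← sq, ← sq_abs]
          exact pow_le_pow_left₀ (abs_nonneg _) this 2
      _ = b ^ 2 := by simp
  have hS2 : ∫ x, S x * S x ∂μ ≤ δ ^ 2 * m ^ 2 := by
    have e1 : ∀ x, S x * S x = ∑ i ∈ Finset.range m, ∑ j ∈ Finset.range m,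
        h (T^[i * p] x) * h (T^[j * p] x) := by
      intro x
      rw [hS]; simp only
      rw [Finset.sum_mul_sum]
    simp only [e1]
    rw [integral_finsetSum _ (fun i _ => (Bm.sum _ fun j _ => (hcomp i).mul (hcomp j)).integrable)]
    have e2 : ∀ i ∈ Finset.range m, ∫ x, ∑ j ∈ Finset.range m, h (T^[i * p] x) * h (T^[j * p] x) ∂μ
        = ∑ j ∈ Finset.range m, ∫ x, h (T^[i * p] x) * h (T^[j * p] x) ∂μ := by
      intro i _
      exact integral_finsetSum _ (fun j _ => ((hcomp i).mul (hcomp j)).integrable)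
    rw [Finset.sum_congr rfl e2]
    have e3 : ∀ i ∈ Finset.range m, ∑ j ∈ Finset.range m, ∫ x, h (T^[i * p] x) * h (T^[j * p] x) ∂μ
        ≤ b ^ 2 + m * (δ ^ 2 / 2) := by
      intro i hi
      have hle : ∀ j ∈ Finset.range m, ∫ x, h (T^[i * p] x) * h (T^[j * p] x) ∂μ
          ≤ (if j = i then b ^ 2 else 0) + δ ^ 2 / 2 := by
        intro j _
        rcases lt_trichotomy i j with hij | hij | hij
        · rw [if_neg (by omega)]; simpa using hcorr i j hij
        · subst hij; simp only [if_true]; have := hdiag i; linarith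
        · rw [if_neg (by omega)]
          have := hcorr j i hij
          simp only [mul_comm (h (T^[j * p] _))] at this
          simpa using this
      refine (Finset.sum_le_sum hle).trans ?_
      rw [Finset.sum_add_distrib, Finset.sum_ite_eq' _ i]
      simp [Finset.mem_range.1 hi]
    refine (Finset.sum_le_sum e3).trans ?_
    rw [Finset.sum_const, Finset.card_range, nsmul_eq_mul]
    have hm' : (0 : ℝ) < m := by exact_mod_cast hm0
    have h5 : b ^ 2 ≤ m * (δ ^ 2 / 2) := by
      rw [div_lt_iff₀ (by positivity)] at hmm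
      linarith
    nlinarith
  -- |S| ≤ (δ m)/2 + S²/(2 δ m)
  have hm' : (0 : ℝ) < m := by exact_mod_cast hm0
  have hK : 0 < δ * m := by positivity
  have hpt : ∀ x, |S x| ≤ (δ * m) / 2 + (S x * S x) / (2 * (δ * m)) := by
    intro x
    rw [← sub_nonneg]
    have : (δ * m) / 2 + (S x * S x) / (2 * (δ * m)) - |S x| = (|S x| - δ * m) ^ 2 / (2 * (δ * m)) := by
      have h6 : S x * S x = |S x| ^ 2 := by rw [sq_abs, sq]
      rw [h6]
      field_simp
      ring
    rw [this]; positivity
  calc ∫ x, |S x| ∂μ ≤ ∫ x, ((δ * m) / 2 + (S x * S x) / (2 * (δ * m))) ∂μ := by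
        apply integral_mono hSB.abs.integrable _ hpt
        exact (integrable_const _).add (((hSB.mul hSB).integrable).div_const _)
    _ = (δ * m) / 2 + (∫ x, S x * S x ∂μ) / (2 * (δ * m)) := by
        rw [integral_add (integrable_const _) (((hSB.mul hSB).integrable).div_const _),
          integral_div (2 * (δ * m)) (fun x => S x * S x)]
        simp
    _ ≤ (δ * m) / 2 + (δ ^ 2 * m ^ 2) / (2 * (δ * m)) := by gcongr
    _ = δ * m := by field_simp; ring

/-- key lemma: a set of prescribed small measure, positively correlated with itself for the first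
`N` times, and almost uncorrelated with `g` at all times -/
lemma exists_good_set (hM : Mix μ T) (hT : MeasurePreserving T μ μ)
    (hne : ∃ A : Set X, MeasurableSet A ∧ 0 < μ A ∧ μ A < 1) {g : X → ℝ} (hg : Bm g)
    (hgc : Tendsto (fun n => C μ T n g g) atTop (𝓝 0)) (N : ℕ) {a γ : ℝ} (ha : 0 < a)
    (ha1 : a < 1) (hγ : 0 < γ) :
    ∃ A : Set X, MeasurableSet A ∧ a ≤ μ.real A ∧ μ.real A ≤ 2 * a ∧
      (∀ n ≤ N, a / 2 ≤ μ.real (A ∩ T^[n] ⁻¹' A)) ∧
      ∀ n, |C μ T n g (ind A)| ≤ γ ∧ |C μ T n (ind A) g| ≤ γ := by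
  obtain ⟨hgm, b, hb⟩ := id hg
  set c := ∫ x, g x ∂μ with hc
  set h : X → ℝ := fun x => g x - c with hh
  have hhB : Bm h := hg.sub (Bm.const c)
  obtain ⟨B, hB⟩ := hhB.2
  have hXne : Nonempty X := by
    by_contra hX
    rw [not_nonempty_iff] at hX
    have : μ univ = 0 := by rw [univ_eq_empty_iff.2 hX]; simp
    rw [measure_univ] at this
    exact one_ne_zero this
  have hB0 : 0 ≤ B := (abs_nonneg _).trans (hB hXne.some)
  have hint0 : ∫ x, h x ∂μ = 0 := by
    rw [hh, integral_sub hg.integrable (integrable_const _)]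
    simp [hc]
  -- correlations of h
  have hhc : Tendsto (fun n => ∫ x, h x * h (T^[n] x) ∂μ) atTop (𝓝 0) := by
    refine hgc.congr fun n => ?_
    have hTn := (hT.iterate n).measurable
    have i1 : Integrable (fun x => g x * g (T^[n] x)) μ := (hg.mul (hg.comp hTn)).integrable
    have i2 : Integrable (fun x => c * g (T^[n] x)) μ := ((hg.comp hTn).integrable).const_mul c
    have i3 : Integrable (fun x => c * g x) μ := (hg.integrable).const_mul c
    have e1 : (fun x => h x * h (T^[n] x))
        = fun x => ((g x * g (T^[n] x) - c * g (T^[n] x)) - c * g x) + c ^ 2 := by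
      funext x; simp only [hh]; ring
    have i12 : Integrable (fun x => g x * g (T^[n] x) - c * g (T^[n] x)) μ := i1.sub i2
    have i123 : Integrable (fun x => g x * g (T^[n] x) - c * g (T^[n] x) - c * g x) μ := i12.sub i3
    rw [e1, integral_add i123 (integrable_const _), integral_sub i12 i3, integral_sub i1 i2,
      integral_const_mul, integral_const_mul, integral_comp_iterate hT n hg]
    unfold C
    rw [← hc]
    simp
    ring
  obtain ⟨m, p, hm0, havg⟩ := exists_avg_small hT hhB hhc (δ := γ / 2) (by positivity)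
  have hm' : (0 : ℝ) < m := by exact_mod_cast hm0
  -- choose E
  have hηpos : 0 < min (a / (2 * (N + 1))) (γ / (4 * (B + 1) * (m * p + 1))) := by positivity
  obtain ⟨E, hE, hE0, hE1⟩ := exists_small hM hT hne hηpos
  have hEa : μ.real E < a / (2 * (N + 1)) := hE1.trans_le (min_le_left _ _)
  have hEγ : μ.real E < γ / (4 * (B + 1) * (m * p + 1)) := hE1.trans_le (min_le_right _ _)
  have hNE : N * μ.real E ≤ a / 2 := by
    have h1 : (0 : ℝ) < 2 * (N + 1) := by positivity
    rw [lt_div_iff₀ h1] at hEa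
    nlinarith
  have hEa' : μ.real E ≤ a := by
    have h1 : (0 : ℝ) < 2 * (N + 1) := by positivity
    rw [lt_div_iff₀ h1] at hEa
    have : (0 : ℝ) ≤ N := Nat.cast_nonneg N
    nlinarith
  -- choose M minimal
  have hex : ∃ M, a ≤ μ.real (tower T E M) :=
    (((tower_tendsto hM hT hE hE0).eventually (lt_mem_nhds ha1)).exists).imp fun _ h => h.le
  classical
  set M := Nat.find hex with hMdef
  have hM1 : a ≤ μ.real (tower T E M) := Nat.find_spec hex
  have hMpos : M ≠ 0 := by
    intro h0
    rw [h0] at hM1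
    simp [tower] at hM1
    linarith
  have hM2 : μ.real (tower T E (M - 1)) < a := by
    by_contra hcon
    push Not at hcon
    have := Nat.find_min' hex hcon
    omega
  set A := tower T E M with hA
  have hAm : MeasurableSet A := tower_meas hT.measurable hE M
  have hA2 : μ.real A ≤ 2 * a := by
    have := tower_real_succ hT hE (M - 1)
    rw [Nat.sub_add_cancel (Nat.pos_of_ne_zero hMpos)] at this
    linarith
  have hnear := tower_near hT hE M
  rw [← hA] at hnear
  have hAB := Bm.ind hAm
  refine ⟨A, hAm, hM1, hA2, ?_, ?_⟩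
  · intro n hn
    have hsub : A ⊆ (A ∩ T^[n] ⁻¹' A) ∪ tower T E n := by
      intro x hx
      by_cases hx2 : x ∈ tower T E n
      · exact Or.inr hx2
      · left
        refine ⟨hx, ?_⟩
        obtain ⟨j, hj, hxj⟩ := mem_tower.1 hx
        have hnj : n ≤ j := by
          by_contra hlt
          exact hx2 (mem_tower.2 ⟨j, by omega, hxj⟩)
        show T^[n] x ∈ A
        refine mem_tower.2 ⟨j - n, by omega, ?_⟩
        rw [← Function.iterate_add_apply, Nat.sub_add_cancel hnj]
        exact hxj
    have htow : ∀ n : ℕ, μ.real (tower T E n) ≤ n * μ.real E := by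
      intro n
      induction n with
      | zero => simp [tower]
      | succ n ih =>
        have := tower_real_succ hT hE n
        push_cast
        linarith
    have h1 : μ.real A ≤ μ.real (A ∩ T^[n] ⁻¹' A) + μ.real (tower T E n) :=
      (measureReal_mono hsub).trans (measureReal_union_le _ _)
    have h2 := htow n
    have h3 : (n : ℝ) * μ.real E ≤ N * μ.real E := by
      have : (n : ℝ) ≤ N := by exact_mod_cast hn
      gcongr
    linarith
  · -- uncorrelated
    have hbd : B * (2 * (m * p) * μ.real E) ≤ γ / 2 := by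
      have h1 : (0 : ℝ) < 4 * (B + 1) * (m * p + 1) := by positivity
      rw [lt_div_iff₀ h1] at hEγ
      have h2 : (0 : ℝ) ≤ m * p := by positivity
      have h3 : B * (m * p) ≤ (B + 1) * (m * p + 1) := by nlinarith
      have h4 := mul_le_mul_of_nonneg_left h3 hE0.le
      nlinarith
    have hjn : ∀ i ∈ Finset.range m, ∫ x, |ind A (T^[i * p] x) - ind A x| ∂μ ≤ 2 * (m * p) * μ.real E := by
      intro i hi
      refine (hnear (i * p)).trans ?_
      have : (i : ℝ) ≤ m := by exact_mod_cast (Finset.mem_range.1 hi).le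
      push_cast
      gcongr
    have hcomp : ∀ k, Measurable (T^[k]) := fun k => (hT.iterate k).measurable
    intro n
    constructor
    · -- C n g 1_A = ∫ h * 1_A ∘ T^n
      have e0 : C μ T n g (ind A) = ∫ x, h x * ind A (T^[n] x) ∂μ := by
        unfold C
        have i1 : Integrable (fun x => g x * ind A (T^[n] x)) μ :=
          (hg.mul (hAB.comp (hcomp n))).integrable
        have i2 : Integrable (fun x => c * ind A (T^[n] x)) μ :=
          ((hAB.comp (hcomp n)).integrable).const_mul c
        have e1 : (fun x => h x * ind A (T^[n] x))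
            = fun x => g x * ind A (T^[n] x) - c * ind A (T^[n] x) := by
          funext x; simp only [hh]; ring
        rw [e1, integral_sub i1 i2, integral_const_mul, integral_comp_iterate hT n hAB]
      rw [e0]
      -- each shifted version is close
      have hshift : ∀ i ∈ Finset.range m,
          |∫ x, h x * ind A (T^[n] x) ∂μ - ∫ x, h (T^[i * p] x) * ind A (T^[n] x) ∂μ|
            ≤ B * (2 * (m * p) * μ.real E) := by
        intro i hi
        have e1 : ∫ x, h x * ind A (T^[n] x) ∂μ
            = ∫ x, h (T^[i * p] x) * ind A (T^[n] (T^[i * p] x)) ∂μ :=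
          (integral_comp_iterate hT (i * p) (hhB.mul (hAB.comp (hcomp n)))).symm
        have i1 : Integrable (fun x => h (T^[i * p] x) * ind A (T^[n] (T^[i * p] x))) μ :=
          ((hhB.mul (hAB.comp (hcomp n))).comp (hcomp (i * p))).integrable
        have i2 : Integrable (fun x => h (T^[i * p] x) * ind A (T^[n] x)) μ :=
          ((hhB.comp (hcomp (i * p))).mul (hAB.comp (hcomp n))).integrable
        rw [e1, ← integral_sub i1 i2]
        have B1 : Bm (fun x => |ind A (T^[i * p] x) - ind A x|) :=
          ((hAB.comp (hcomp (i * p))).sub hAB).abs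
        calc |∫ x, (h (T^[i * p] x) * ind A (T^[n] (T^[i * p] x)) - h (T^[i * p] x) * ind A (T^[n] x)) ∂μ|
            ≤ ∫ x, |h (T^[i * p] x) * ind A (T^[n] (T^[i * p] x)) - h (T^[i * p] x) * ind A (T^[n] x)| ∂μ :=
              abs_integral_le_integral_abs
          _ ≤ ∫ x, B * |ind A (T^[i * p] (T^[n] x)) - ind A (T^[n] x)| ∂μ := by
              apply integral_mono (i1.sub i2).abs
              · exact ((B1.comp (hcomp n)).integrable).const_mul B
              · intro x
                simp only [Pi.sub_apply]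
                rw [← mul_sub, abs_mul, ← Function.iterate_add_apply, ← Function.iterate_add_apply,
                  Nat.add_comm]
                exact mul_le_mul_of_nonneg_right (hB _) (abs_nonneg _)
          _ = B * ∫ x, |ind A (T^[i * p] x) - ind A x| ∂μ := by
              rw [integral_const_mul, integral_comp_iterate hT n B1]
          _ ≤ _ := by
              apply mul_le_mul_of_nonneg_left (hjn i hi) hB0
      -- sum
      have hsum : |∑ i ∈ Finset.range m, ∫ x, h (T^[i * p] x) * ind A (T^[n] x) ∂μ| ≤ γ / 2 * m := by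
        have e1 : ∑ i ∈ Finset.range m, ∫ x, h (T^[i * p] x) * ind A (T^[n] x) ∂μ
            = ∫ x, (∑ i ∈ Finset.range m, h (T^[i * p] x)) * ind A (T^[n] x) ∂μ := by
          rw [← integral_finsetSum]
          · simp only [Finset.sum_mul]
          · intro i _
            exact ((hhB.comp (hcomp (i * p))).mul (hAB.comp (hcomp n))).integrable
        have hSB : Bm (fun x => ∑ i ∈ Finset.range m, h (T^[i * p] x)) :=
          Bm.sum _ fun i _ => hhB.comp (hcomp (i * p))
        rw [e1]
        calc |∫ x, (∑ i ∈ Finset.range m, h (T^[i * p] x)) * ind A (T^[n] x) ∂μ|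
            ≤ ∫ x, |(∑ i ∈ Finset.range m, h (T^[i * p] x)) * ind A (T^[n] x)| ∂μ :=
              abs_integral_le_integral_abs
          _ ≤ ∫ x, |∑ i ∈ Finset.range m, h (T^[i * p] x)| ∂μ := by
              apply integral_mono ((hSB.mul (hAB.comp (hcomp n))).abs.integrable) hSB.abs.integrable
              intro x
              simp only
              rw [abs_mul]
              calc _ ≤ |∑ i ∈ Finset.range m, h (T^[i * p] x)| * 1 :=
                    mul_le_mul_of_nonneg_left (ind_abs_le _ _) (abs_nonneg _)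
                _ = _ := mul_one _
          _ ≤ γ / 2 * m := havg
      have htot : |(m : ℝ) * ∫ x, h x * ind A (T^[n] x) ∂μ| ≤ m * (γ / 2) + γ / 2 * m := by
        have e1 : (m : ℝ) * ∫ x, h x * ind A (T^[n] x) ∂μ
            = ∑ i ∈ Finset.range m, (∫ x, h x * ind A (T^[n] x) ∂μ
                - ∫ x, h (T^[i * p] x) * ind A (T^[n] x) ∂μ)
              + ∑ i ∈ Finset.range m, ∫ x, h (T^[i * p] x) * ind A (T^[n] x) ∂μ := by
          rw [Finset.sum_sub_distrib, Finset.sum_const, Finset.card_range, nsmul_eq_mul]; ring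
        rw [e1]
        refine (abs_add_le _ _).trans (add_le_add ?_ hsum)
        refine (Finset.abs_sum_le_sum_abs _ _).trans ?_
        calc _ ≤ ∑ i ∈ Finset.range m, γ / 2 :=
              Finset.sum_le_sum fun i hi => (hshift i hi).trans hbd
          _ = m * (γ / 2) := by simp
      rw [abs_mul, abs_of_pos hm'] at htot
      have : (m : ℝ) * |∫ x, h x * ind A (T^[n] x) ∂μ| ≤ m * γ := by linarith
      exact le_of_mul_le_mul_left this hm'
    · have e0 : C μ T n (ind A) g = ∫ x, ind A x * h (T^[n] x) ∂μ := by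
        unfold C
        have i1 : Integrable (fun x => ind A x * g (T^[n] x)) μ :=
          (hAB.mul (hg.comp (hcomp n))).integrable
        have i2 : Integrable (fun x => ind A x * c) μ :=
          (hAB.integrable).mul_const c
        have e1 : (fun x => ind A x * h (T^[n] x))
            = fun x => ind A x * g (T^[n] x) - ind A x * c := by
          funext x; simp only [hh]; ring
        rw [e1, integral_sub i1 i2, integral_mul_const]
      rw [e0]
      have hshift : ∀ i ∈ Finset.range m,
          |∫ x, ind A x * h (T^[n] x) ∂μ - ∫ x, ind A x * h (T^[i * p] (T^[n] x)) ∂μ|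
            ≤ B * (2 * (m * p) * μ.real E) := by
        intro i hi
        have e1 : ∫ x, ind A x * h (T^[n] x) ∂μ
            = ∫ x, ind A (T^[i * p] x) * h (T^[n] (T^[i * p] x)) ∂μ :=
          (integral_comp_iterate hT (i * p) (hAB.mul (hhB.comp (hcomp n)))).symm
        have i1 : Integrable (fun x => ind A (T^[i * p] x) * h (T^[n] (T^[i * p] x))) μ :=
          ((hAB.mul (hhB.comp (hcomp n))).comp (hcomp (i * p))).integrable
        have i2 : Integrable (fun x => ind A x * h (T^[i * p] (T^[n] x))) μ :=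
          (hAB.mul ((hhB.comp (hcomp (i * p))).comp (hcomp n))).integrable
        rw [e1, ← integral_sub i1 i2]
        have B1 : Bm (fun x => |ind A (T^[i * p] x) - ind A x|) :=
          ((hAB.comp (hcomp (i * p))).sub hAB).abs
        calc |∫ x, (ind A (T^[i * p] x) * h (T^[n] (T^[i * p] x)) - ind A x * h (T^[i * p] (T^[n] x))) ∂μ|
            ≤ ∫ x, |ind A (T^[i * p] x) * h (T^[n] (T^[i * p] x)) - ind A x * h (T^[i * p] (T^[n] x))| ∂μ :=
              abs_integral_le_integral_abs
          _ ≤ ∫ x, B * |ind A (T^[i * p] x) - ind A x| ∂μ := by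
              apply integral_mono (i1.sub i2).abs (B1.integrable.const_mul B)
              intro x
              simp only [Pi.sub_apply]
              have : T^[n] (T^[i * p] x) = T^[i * p] (T^[n] x) := by
                rw [← Function.iterate_add_apply, ← Function.iterate_add_apply, Nat.add_comm]
              rw [this, ← sub_mul, abs_mul, mul_comm]
              exact mul_le_mul_of_nonneg_right (hB _) (abs_nonneg _)
          _ = B * ∫ x, |ind A (T^[i * p] x) - ind A x| ∂μ := by
              rw [integral_const_mul]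
          _ ≤ _ := by
              apply mul_le_mul_of_nonneg_left (hjn i hi) hB0
      have hsum : |∑ i ∈ Finset.range m, ∫ x, ind A x * h (T^[i * p] (T^[n] x)) ∂μ| ≤ γ / 2 * m := by
        have hSB : Bm (fun x => ∑ i ∈ Finset.range m, h (T^[i * p] x)) :=
          Bm.sum _ fun i _ => hhB.comp (hcomp (i * p))
        have e1 : ∑ i ∈ Finset.range m, ∫ x, ind A x * h (T^[i * p] (T^[n] x)) ∂μ
            = ∫ x, ind A x * (∑ i ∈ Finset.range m, h (T^[i * p] (T^[n] x))) ∂μ := by
          rw [← integral_finsetSum]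
          · simp only [Finset.mul_sum]
          · intro i _
            exact (hAB.mul ((hhB.comp (hcomp (i * p))).comp (hcomp n))).integrable
        rw [e1]
        calc |∫ x, ind A x * (∑ i ∈ Finset.range m, h (T^[i * p] (T^[n] x))) ∂μ|
            ≤ ∫ x, |ind A x * (∑ i ∈ Finset.range m, h (T^[i * p] (T^[n] x)))| ∂μ :=
              abs_integral_le_integral_abs
          _ ≤ ∫ x, |∑ i ∈ Finset.range m, h (T^[i * p] (T^[n] x))| ∂μ := by
              apply integral_mono ((hAB.mul (hSB.comp (hcomp n))).abs.integrable)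
                ((hSB.comp (hcomp n)).abs.integrable)
              intro x
              simp only
              rw [abs_mul]
              calc _ ≤ 1 * |∑ i ∈ Finset.range m, h (T^[i * p] (T^[n] x))| :=
                    mul_le_mul_of_nonneg_right (ind_abs_le _ _) (abs_nonneg _)
                _ = _ := one_mul _
          _ = ∫ x, |∑ i ∈ Finset.range m, h (T^[i * p] x)| ∂μ :=
              integral_comp_iterate hT n hSB.abs
          _ ≤ γ / 2 * m := havg
      have htot : |(m : ℝ) * ∫ x, ind A x * h (T^[n] x) ∂μ| ≤ m * (γ / 2) + γ / 2 * m := by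
        have e1 : (m : ℝ) * ∫ x, ind A x * h (T^[n] x) ∂μ
            = ∑ i ∈ Finset.range m, (∫ x, ind A x * h (T^[n] x) ∂μ
                - ∫ x, ind A x * h (T^[i * p] (T^[n] x)) ∂μ)
              + ∑ i ∈ Finset.range m, ∫ x, ind A x * h (T^[i * p] (T^[n] x)) ∂μ := by
          rw [Finset.sum_sub_distrib, Finset.sum_const, Finset.card_range, nsmul_eq_mul]; ring
        rw [e1]
        refine (abs_add_le _ _).trans (add_le_add ?_ hsum)
        refine (Finset.abs_sum_le_sum_abs _ _).trans ?_
        calc _ ≤ ∑ i ∈ Finset.range m, γ / 2 :=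
              Finset.sum_le_sum fun i hi => (hshift i hi).trans hbd
          _ = m * (γ / 2) := by simp
      rw [abs_mul, abs_of_pos hm'] at htot
      have : (m : ℝ) * |∫ x, ind A x * h (T^[n] x) ∂μ| ≤ m * γ := by linarith
      exact le_of_mul_le_mul_left this hm'

/-- the scale `P_K` -/
noncomputable def P (K : ℕ) : ℝ := (1 / 8 : ℝ) ^ K / 4096

lemma P_pos (K : ℕ) : 0 < P K := by unfold P; positivity

lemma P_succ (K : ℕ) : P (K + 1) = P K / 8 := by unfold P; rw [pow_succ]; ring

/-- invariant -/
structure Good (μ : Measure X) (T : X → X) (K : ℕ) (f : X → ℝ) : Prop where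
  bm : Bm f
  t1 : ∀ B : Set X, MeasurableSet B → Tendsto (fun n => C μ T n f (ind B)) atTop (𝓝 0)
  t2 : ∀ B : Set X, MeasurableSet B → Tendsto (fun n => C μ T n (ind B) f) atTop (𝓝 0)
  t3 : Tendsto (fun n => C μ T n f f) atTop (𝓝 0)
  lo : ∀ n, 1 ≤ n → -(P K / 16) ≤ C μ T n f f

lemma good_zero : Good μ T 0 (fun _ => 0) := by
  refine ⟨Bm.const 0, ?_, ?_, ?_, ?_⟩
  · intro B _; simp [C]
  · intro B _; simp [C]
  · simp [C]
  · intro n _
    have := P_pos 0
    simp [C]; linarith

lemma step (hM : Mix μ T) (hT : MeasurePreserving T μ μ)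
    (hne : ∃ A : Set X, MeasurableSet A ∧ 0 < μ A ∧ μ A < 1) (K : ℕ) (f : X → ℝ)
    (hf : Good μ T K f) :
    ∃ f' : X → ℝ, Good μ T (K + 1) f' ∧ (∀ x, |f' x - f x| ≤ (1 / 2 : ℝ) ^ K) ∧
      ∀ n, 1 ≤ n → n ≤ K + 1 → C μ T n f f + P K / 8 ≤ C μ T n f' f' := by
  have hP := P_pos K
  have hP1 := P_succ K
  -- choose N
  have hev := (tendsto_order.1 hf.t3).1 (-(P (K + 1) / 64)) (by rw [hP1]; linarith)
  obtain ⟨N0, hN0⟩ := eventually_atTop.1 hev
  set N := max N0 (K + 2) with hN
  set e : ℝ := (1 / 2 : ℝ) ^ K with he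
  have he0 : 0 < e := by positivity
  have he1 : e ≤ 1 := pow_le_one₀ (by norm_num) (by norm_num)
  set a : ℝ := (1 / 2 : ℝ) ^ K / 4096 with ha
  have ha0 : 0 < a := by positivity
  have ha1 : a ≤ 1 / 4096 := by
    rw [ha]; linarith
  have hPe : P K = e ^ 2 * a := by
    rw [ha, he, P]
    have : ((1 : ℝ) / 8) ^ K = ((1 / 2) ^ K) ^ 3 := by
      rw [← pow_mul, mul_comm, pow_mul]; norm_num
    rw [this]; ring
  obtain ⟨A, hA, hAa, hA2, hself, hcross⟩ :=
    exists_good_set hM hT hne hf.bm hf.t3 N (a := a) (γ := P (K + 1) / 128) ha0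
      (by linarith) (by have := P_pos (K + 1); positivity)
  have hAB := Bm.ind hA
  refine ⟨fun x => f x + e * ind A x, ⟨?_, ?_, ?_, ?_, ?_⟩, ?_, ?_⟩
  · exact hf.bm.add ((Bm.const e).mul hAB)
  · intro B hB
    have := (hf.t1 B hB).add ((hM.tendsto_C hT hA hB).const_mul e)
    simp only [mul_zero, add_zero] at this
    refine this.congr fun n => ?_
    rw [C_add_left hT n hf.bm hAB (Bm.ind hB) e]
  · intro B hB
    have := (hf.t2 B hB).add ((hM.tendsto_C hT hB hA).const_mul e)
    simp only [mul_zero, add_zero] at this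
    refine this.congr fun n => ?_
    rw [C_add_right hT n hf.bm hAB (Bm.ind hB) e]
  · have := (hf.t3.add (((hf.t1 A hA).add (hf.t2 A hA)).const_mul e)).add
      ((hM.tendsto_C hT hA hA).const_mul (e ^ 2))
    simp only [mul_zero, add_zero] at this
    refine this.congr fun n => ?_
    rw [C_add_smul hT n hf.bm hAB e]
  · intro n hn
    rw [C_add_smul hT n hf.bm hAB e]
    obtain ⟨hc1, hc2⟩ := hcross n
    rw [abs_le] at hc1 hc2
    have hcr : -(P (K + 1) / 64) ≤ e * (C μ T n f (ind A) + C μ T n (ind A) f) := by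
      have h1 : -(P (K + 1) / 64) ≤ C μ T n f (ind A) + C μ T n (ind A) f := by linarith [hc1.1, hc2.1]
      have h2 := P_pos (K + 1)
      nlinarith
    rcases lt_or_ge n N with hlt | hge
    · have h3 := hself n hlt.le
      have h4 : a / 4 ≤ C μ T n (ind A) (ind A) := by
        rw [C_ind_ind hT n hA hA]
        nlinarith
      have h5 : e ^ 2 * (a / 4) ≤ e ^ 2 * C μ T n (ind A) (ind A) :=
        mul_le_mul_of_nonneg_left h4 (by positivity)
      have h6 := hf.lo n hn
      have h7 := P_pos (K + 1)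
      nlinarith
    · have h3 := (hN0 n (le_trans (le_max_left _ _) hge)).le
      have h4 : -(4 * a ^ 2) ≤ C μ T n (ind A) (ind A) := by
        rw [C_ind_ind hT n hA hA]
        have : 0 ≤ μ.real (A ∩ T^[n] ⁻¹' A) := measureReal_nonneg
        nlinarith
      have h5 : e ^ 2 * (-(4 * a ^ 2)) ≤ e ^ 2 * C μ T n (ind A) (ind A) :=
        mul_le_mul_of_nonneg_left h4 (by positivity)
      have h6 : e ^ 2 * (4 * a ^ 2) ≤ P (K + 1) / 32 := by
        rw [hP1, hPe]
        have : e ^ 2 * (4 * a ^ 2) = (e ^ 2 * a) * (4 * a) := by ring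
        rw [this]
        have h8 : 0 < e ^ 2 * a := by positivity
        nlinarith
      nlinarith
  · intro x
    simp only [add_sub_cancel_left]
    rw [abs_mul, abs_of_pos he0]
    calc e * |ind A x| ≤ e * 1 := mul_le_mul_of_nonneg_left (ind_abs_le _ _) he0.le
      _ = e := mul_one e
  · intro n hn1 hn2
    rw [C_add_smul hT n hf.bm hAB e]
    obtain ⟨hc1, hc2⟩ := hcross n
    rw [abs_le] at hc1 hc2
    have hcr : -(P (K + 1) / 64) ≤ e * (C μ T n f (ind A) + C μ T n (ind A) f) := by
      have h1 : -(P (K + 1) / 64) ≤ C μ T n f (ind A) + C μ T n (ind A) f := by linarith [hc1.1, hc2.1]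
      have h2 := P_pos (K + 1)
      nlinarith
    have hlt : n ≤ N := le_trans (by omega) (le_max_right N0 (K + 2))
    have h3 := hself n hlt
    have h4 : a / 4 ≤ C μ T n (ind A) (ind A) := by
      rw [C_ind_ind hT n hA hA]
      nlinarith
    have h5 : e ^ 2 * (a / 4) ≤ e ^ 2 * C μ T n (ind A) (ind A) :=
      mul_le_mul_of_nonneg_left h4 (by positivity)
    nlinarith

/-- every nontrivial mixing system has a bounded strictly over-recurrent function -/
theorem exists_bounded_over_recurrent (hM : Mix μ T) (hT : MeasurePreserving T μ μ)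
    (hne : ∃ A : Set X, MeasurableSet A ∧ 0 < μ A ∧ μ A < 1) :
    ∃ f : X → ℝ, Bm f ∧ ∀ n, 1 ≤ n → 0 < C μ T n f f := by
  classical
  choose! nxt hn1 hn2 hn3 using step hM hT hne
  let F : ℕ → X → ℝ := fun K => Nat.rec (fun _ => 0) (fun K f => nxt K f) K
  have hF0 : F 0 = fun _ => 0 := rfl
  have hFs : ∀ K, F (K + 1) = nxt K (F K) := fun K => rfl
  have hG : ∀ K, Good μ T K (F K) := by
    intro K
    induction K with
    | zero => rw [hF0]; exact good_zero
    | succ K ih => rw [hFs]; exact hn1 K _ ih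
  have hd : ∀ K x, |F (K + 1) x - F K x| ≤ (1 / 2 : ℝ) ^ K := by
    intro K x; rw [hFs]; exact hn2 K _ (hG K) x
  have hinc : ∀ K n, 1 ≤ n → n ≤ K + 1 → C μ T n (F K) (F K) + P K / 8 ≤ C μ T n (F (K + 1)) (F (K + 1)) := by
    intro K n h1 h2; rw [hFs]; exact hn3 K _ (hG K) n h1 h2
  have hbd : ∀ K x, |F K x| ≤ 2 := by
    have : ∀ K x, |F K x| ≤ 2 - 2 * (1 / 2 : ℝ) ^ K := by
      intro K x
      induction K with
      | zero => simp [hF0]
      | succ K ih =>
        have h1 := hd K x
        have h2 : |F (K + 1) x| ≤ |F K x| + |F (K + 1) x - F K x| := by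
          have := abs_add_le (F K x) (F (K + 1) x - F K x)
          simpa using this
        rw [pow_succ]
        linarith
    intro K x
    have h1 := this K x
    have : (0 : ℝ) ≤ (1 / 2) ^ K := by positivity
    linarith
  have hlim : ∀ x, ∃ l, Tendsto (fun K => F K x) atTop (𝓝 l) := by
    intro x
    apply cauchySeq_tendsto_of_complete
    apply cauchySeq_of_le_geometric (1 / 2 : ℝ) 1 (by norm_num)
    intro K
    rw [dist_comm, Real.dist_eq, one_mul]
    exact hd K x
  choose f hf using hlim
  have hfm : Measurable f := measurable_of_tendsto_metrizable (fun K => (hG K).bm.1)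
    (tendsto_pi_nhds.2 hf)
  have hfb : ∀ x, |f x| ≤ 2 := fun x =>
    le_of_tendsto ((hf x).abs) (Eventually.of_forall fun K => hbd K x)
  have hfB : Bm f := ⟨hfm, 2, hfb⟩
  refine ⟨f, hfB, fun n hn => ?_⟩
  -- convergence of C
  have c1 : Tendsto (fun K => ∫ x, F K x ∂μ) atTop (𝓝 (∫ x, f x ∂μ)) := by
    apply tendsto_integral_of_dominated_convergence (fun _ => (2 : ℝ))
    · intro K; exact (hG K).bm.1.aestronglyMeasurable
    · exact integrable_const _
    · intro K; exact Eventually.of_forall fun x => hbd K x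
    · exact Eventually.of_forall hf
  have c2 : Tendsto (fun K => ∫ x, F K x * F K (T^[n] x) ∂μ) atTop
      (𝓝 (∫ x, f x * f (T^[n] x) ∂μ)) := by
    apply tendsto_integral_of_dominated_convergence (fun _ => (4 : ℝ))
    · intro K
      exact ((hG K).bm.mul ((hG K).bm.comp (hT.iterate n).measurable)).1.aestronglyMeasurable
    · exact integrable_const _
    · intro K
      refine Eventually.of_forall fun x => ?_
      rw [Real.norm_eq_abs, abs_mul]
      calc |F K x| * |F K (T^[n] x)| ≤ 2 * 2 :=
            mul_le_mul (hbd K x) (hbd K _) (abs_nonneg _) (by norm_num)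
        _ = 4 := by norm_num
    · exact Eventually.of_forall fun x => (hf x).mul (hf _)
  have c3 : Tendsto (fun K => C μ T n (F K) (F K)) atTop (𝓝 (C μ T n f f)) :=
    c2.sub (c1.mul c1)
  have hlow : ∀ K, n + 1 ≤ K → P n / 16 ≤ C μ T n (F K) (F K) := by
    intro K hK
    induction K, hK using Nat.le_induction with
    | base =>
      have h1 := hinc n n hn (by omega)
      have h2 := (hG n).lo n hn
      linarith
    | succ K hK ih =>
      have h1 := hinc K n hn (by omega)
      have h2 := P_pos K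
      linarith
  have hge : P n / 16 ≤ C μ T n f f :=
    ge_of_tendsto c3 (eventually_atTop.2 ⟨n + 1, hlow⟩)
  have := P_pos n
  linarith

end

end Pool.Agent.X84.OverRec
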