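import Mathlib

set_option autoImplicit false
open Filter Topology Finset

namespace Pool.Agent.X84.AbelWeights

/-- Iterated differences: `Δ⁰_n = ℓ_n`, `Δ^{k+1}_n = Δ^k_n - Δ^k_{n+1}`.
Sequences are indexed by `ℕ = {0, 1, …}`; the term with index `n` here is the term with index
`n + 1` of the problem. -/
def Delta : ℕ → (ℕ → ℝ) → ℕ → ℝ
  | 0, l, n => l n
  | k + 1, l, n => Delta k l n - Delta k l (n + 1)

/-- Condition (4a): all iterated differences of order `k ≥ 1` are nonnegative. -/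
def FullyMonotonic (l : ℕ → ℝ) : Prop := ∀ k, 1 ≤ k → ∀ n, 0 ≤ Delta k l n

/-- `ℓ` is admissible for `s` (conditions 1, 2, 3), and the weighted means converge to `M`. -/
structure AdmissibleWithLimit (s l : ℕ → ℝ) (M : ℝ) : Prop where
  pos : ∀ n, 0 < l n
  diverges : Tendsto (fun n => ∑ i ∈ range (n + 1), l i) atTop atTop
  means : Tendsto (fun n => (∑ i ∈ range (n + 1), l i * s i) / ∑ i ∈ range (n + 1), l i)
    atTop (𝓝 M)

/-- the Abel mean -/
noncomputable def abel (s : ℕ → ℝ) (x : ℝ) : ℝ := (1 - x) * ∑' m, x ^ m * s m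

/-- selection of a rapidly increasing subsequence -/
lemma exists_fast (y : ℕ → ℝ) (h0 : ∀ j, 0 < y j) (h1 : ∀ j, y j < 1)
    (hy : Tendsto y atTop (𝓝 1)) :
    ∃ j q : ℕ → ℕ, StrictMono j ∧ StrictMono q ∧ 1 ≤ q 0 ∧
      (∀ i, 1 - y (j (i + 1)) ^ q i ≤ (1 / 2 : ℝ) ^ (i + 1)) ∧
      ∀ i, y (j i) ^ q i ≤ (1 / 2 : ℝ) ^ i := by
  have step : ∀ (i : ℕ) (a : ℕ × ℕ), ∃ b : ℕ × ℕ, a.1 < b.1 ∧ a.2 < b.2 ∧
      1 - y b.1 ^ a.2 ≤ (1 / 2 : ℝ) ^ (i + 1) ∧ y b.1 ^ b.2 ≤ (1 / 2 : ℝ) ^ (i + 1) := by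
    intro i a
    have ht : Tendsto (fun k => y k ^ a.2) atTop (𝓝 1) := by
      have := hy.pow a.2
      simpa using this
    have hlt : 1 - (1 / 2 : ℝ) ^ (i + 1) < 1 := by
      have : (0 : ℝ) < (1 / 2) ^ (i + 1) := by positivity
      linarith
    obtain ⟨k, hk1, hk2⟩ := ((ht.eventually (lt_mem_nhds hlt)).and (eventually_gt_atTop a.1)).exists
    have hp := tendsto_pow_atTop_nhds_zero_of_lt_one (h0 k).le (h1 k)
    have hpos : (0 : ℝ) < (1 / 2) ^ (i + 1) := by positivity
    obtain ⟨m, hm1, hm2⟩ := ((hp.eventually (gt_mem_nhds hpos)).and (eventually_gt_atTop a.2)).exists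
    exact ⟨(k, m), hk2, hm2, by simp only; linarith, hm1.le⟩
  choose nxt hn1 hn2 hn3 hn4 using step
  let F : ℕ → ℕ × ℕ := fun i => Nat.rec (0, 1) (fun i a => nxt i a) i
  have hF0 : F 0 = (0, 1) := rfl
  have hFs : ∀ i, F (i + 1) = nxt i (F i) := fun i => rfl
  refine ⟨fun i => (F i).1, fun i => (F i).2, strictMono_nat_of_lt_succ ?_,
    strictMono_nat_of_lt_succ ?_, ?_, ?_, ?_⟩
  · intro i; rw [hFs]; exact hn1 _ _
  · intro i; rw [hFs]; exact hn2 _ _
  · show 1 ≤ (F 0).2
    rw [hF0]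
  · intro i; simp only [hFs i]; exact hn3 _ _
  · intro i
    cases i with
    | zero => simp only [hF0, pow_one, pow_zero]; exact (h1 0).le
    | succ i => simp only [hFs i]; exact hn4 _ _

lemma summable_pow_mul {s : ℕ → ℝ} {B : ℝ} (hs : ∀ n, |s n| ≤ B) {x : ℝ} (h0 : 0 ≤ x)
    (h1 : x < 1) : Summable fun m => x ^ m * s m := by
  apply Summable.of_norm_bounded ((summable_geometric_of_lt_one h0 h1).mul_right B)
  intro m
  rw [norm_mul, Real.norm_eq_abs, Real.norm_eq_abs, abs_of_nonneg (pow_nonneg h0 m)]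
  exact mul_le_mul_of_nonneg_left (hs m) (pow_nonneg h0 m)

/-- main lemma for centred sequences with fast `x` -/
lemma main_centred {s : ℕ → ℝ} {B : ℝ} (hs : ∀ n, |s n| ≤ B) {x : ℕ → ℝ} {q : ℕ → ℕ}
    (h0 : ∀ i, 0 < x i) (h1 : ∀ i, x i < 1) (hq : StrictMono q) (hq0 : 1 ≤ q 0)
    (hf1 : ∀ i, 1 - x (i + 1) ^ q i ≤ (1 / 2 : ℝ) ^ (i + 1))
    (hf2 : ∀ i, x i ^ q i ≤ (1 / 2 : ℝ) ^ i)
    (ha : Tendsto (fun i => abel s (x i)) atTop (𝓝 0)) :
    Tendsto (fun n => (∑ m ∈ range (n + 1), (∑' i, (1 - x i) * x i ^ m) * s m) /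
      ∑ m ∈ range (n + 1), (∑' i, (1 - x i) * x i ^ m)) atTop (𝓝 0) ∧
    Tendsto (fun n => ∑ m ∈ range (n + 1), (∑' i, (1 - x i) * x i ^ m)) atTop atTop ∧
    Summable (fun i => 1 - x i) := by
  have hB : 0 ≤ B := (abs_nonneg _).trans (hs 0)
  have hx1 : ∀ i, 0 < 1 - x i := fun i => by linarith [h1 i]
  -- summability of 1 - x i
  have hsum : Summable (fun i => 1 - x i) := by
    rw [← summable_nat_add_iff 1]
    refine Summable.of_nonneg_of_le (fun i => (hx1 _).le) (fun i => ?_)
      ((summable_geometric_of_lt_one (by norm_num : (0 : ℝ) ≤ 1 / 2) (by norm_num)).mul_right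
        (1 / 2))
    have hqi : 1 ≤ q i := hq0.trans (hq.monotone (Nat.zero_le i))
    have h2 : x (i + 1) ^ q i ≤ x (i + 1) := by
      calc x (i + 1) ^ q i ≤ x (i + 1) ^ 1 := pow_le_pow_of_le_one (h0 _).le (h1 _).le hqi
        _ = x (i + 1) := pow_one _
    have := hf1 i
    rw [pow_succ] at this
    linarith
  have hpw : ∀ i n, 0 ≤ 1 - x i ^ n := fun i n => by
    have := pow_le_one₀ (n := n) (h0 i).le (h1 i).le
    linarith
  have hsum1 : ∀ m, Summable (fun i => (1 - x i) * x i ^ m) := fun m => by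
    refine Summable.of_nonneg_of_le (fun i => mul_nonneg (hx1 i).le (pow_nonneg (h0 i).le m))
      (fun i => ?_) hsum
    exact mul_le_of_le_one_right (hx1 i).le (pow_le_one₀ (h0 i).le (h1 i).le)
  -- the geometric sums
  have hgeo : ∀ i n, ∑ m ∈ range n, (1 - x i) * x i ^ m = 1 - x i ^ n := by
    intro i n
    rw [← mul_sum]
    exact mul_neg_geom_sum (x i) n
  have hsumn : ∀ n : ℕ, Summable (fun i => 1 - x i ^ n) := fun n => by
    have h3 : Summable (fun i => ∑ m ∈ range n, (1 - x i) * x i ^ m) :=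
      summable_sum fun m _ => hsum1 m
    exact h3.congr fun i => (hgeo i n)
  have hL : ∀ n, ∑ m ∈ range n, (∑' i, (1 - x i) * x i ^ m) = ∑' i, (1 - x i ^ n) := by
    intro n
    rw [← Summable.tsum_finsetSum (fun m _ => hsum1 m)]
    exact tsum_congr fun i => hgeo i n
  set A : ℕ → ℕ → ℝ := fun i n => (1 - x i) * ∑ m ∈ range n, x i ^ m * s m with hA
  have hS : ∀ n, ∑ m ∈ range n, (∑' i, (1 - x i) * x i ^ m) * s m = ∑' i, A i n := by
    intro n
    have h3 : ∀ m, (∑' i, (1 - x i) * x i ^ m) * s m = ∑' i, (1 - x i) * x i ^ m * s m :=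
      fun m => tsum_mul_right.symm
    simp only [h3]
    have h4 : ∀ m ∈ range n, Summable (fun i => (1 - x i) * x i ^ m * s m) :=
      fun m _ => (hsum1 m).mul_right _
    rw [← Summable.tsum_finsetSum h4]
    refine tsum_congr fun i => ?_
    rw [hA]; simp only [mul_sum, mul_assoc]
  -- bounds for A
  have hA1 : ∀ i n, |A i n| ≤ B * (1 - x i ^ n) := by
    intro i n
    rw [← hgeo, mul_sum, hA]
    simp only [mul_sum]
    refine (abs_sum_le_sum_abs _ _).trans (sum_le_sum fun m _ => ?_)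
    rw [abs_mul, abs_mul, abs_of_pos (hx1 i), abs_of_nonneg (pow_nonneg (h0 i).le m)]
    have h3 := mul_le_mul_of_nonneg_left (hs m) (mul_nonneg (hx1 i).le (pow_nonneg (h0 i).le m))
    linarith
  have hA2 : ∀ i n, |A i n| ≤ |abel s (x i)| + B * x i ^ n := by
    intro i n
    have hsm := summable_pow_mul hs (h0 i).le (h1 i)
    have e1 : abel s (x i) - A i n = (1 - x i) * (x i ^ n * ∑' m, x i ^ m * s (m + n)) := by
      have h5 := hsm.sum_add_tsum_nat_add n
      have h6 : ∑' m, x i ^ (m + n) * s (m + n) = x i ^ n * ∑' m, x i ^ m * s (m + n) := by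
        rw [← tsum_mul_left]
        exact tsum_congr fun m => by rw [pow_add]; ring
      rw [← h6, abel, ← h5, hA]
      ring
    have hs' : ∀ m, |s (m + n)| ≤ B := fun m => hs _
    have hsm' := summable_pow_mul hs' (h0 i).le (h1 i)
    have e2 : |∑' m, x i ^ m * s (m + n)| ≤ B * (1 - x i)⁻¹ := by
      rw [← tsum_geometric_of_lt_one (h0 i).le (h1 i), ← tsum_mul_left]
      refine (norm_tsum_le_tsum_norm hsm'.norm).trans ?_
      refine hsm'.norm.tsum_le_tsum (fun m => ?_)
        ((summable_geometric_of_lt_one (h0 i).le (h1 i)).mul_left B)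
      rw [norm_mul, Real.norm_eq_abs, Real.norm_eq_abs, abs_of_nonneg (pow_nonneg (h0 i).le m),
        mul_comm]
      exact mul_le_mul_of_nonneg_right (hs' m) (pow_nonneg (h0 i).le m)
    have e3 : |abel s (x i) - A i n| ≤ B * x i ^ n := by
      rw [e1, abs_mul, abs_mul, abs_of_pos (hx1 i), abs_of_nonneg (pow_nonneg (h0 i).le n)]
      calc (1 - x i) * (x i ^ n * |∑' m, x i ^ m * s (m + n)|)
          ≤ (1 - x i) * (x i ^ n * (B * (1 - x i)⁻¹)) := by
            have := (hx1 i).le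
            have h4 := pow_nonneg (h0 i).le n
            gcongr
        _ = B * x i ^ n := by
            have := (hx1 i).ne'
            field_simp
    have e4 : A i n = abel s (x i) - (abel s (x i) - A i n) := by ring
    calc |A i n| = |abel s (x i) - (abel s (x i) - A i n)| := by rw [← e4]
      _ ≤ |abel s (x i)| + |abel s (x i) - A i n| := abs_sub _ _
      _ ≤ _ := by linarith
  have habel : ∀ i, |abel s (x i)| ≤ B := by
    intro i
    rw [abel, abs_mul, abs_of_pos (hx1 i)]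
    have hsm := summable_pow_mul hs (h0 i).le (h1 i)
    have e2 : |∑' m, x i ^ m * s m| ≤ B * (1 - x i)⁻¹ := by
      rw [← tsum_geometric_of_lt_one (h0 i).le (h1 i), ← tsum_mul_left]
      refine (norm_tsum_le_tsum_norm hsm.norm).trans ?_
      refine hsm.norm.tsum_le_tsum (fun m => ?_)
        ((summable_geometric_of_lt_one (h0 i).le (h1 i)).mul_left B)
      rw [norm_mul, Real.norm_eq_abs, Real.norm_eq_abs, abs_of_nonneg (pow_nonneg (h0 i).le m),
        mul_comm]
      exact mul_le_mul_of_nonneg_right (hs m) (pow_nonneg (h0 i).le m)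
    calc (1 - x i) * |∑' m, x i ^ m * s m| ≤ (1 - x i) * (B * (1 - x i)⁻¹) := by
          have := (hx1 i).le
          gcongr
      _ = B := by
          have := (hx1 i).ne'
          field_simp
  -- the key pointwise bound
  have hkey : ∀ n, ∃ i0, ∀ i, ∀ ε > 0, |abel s (x i)| ≤ ε →
      |A i n| ≤ ε * (1 - x i ^ n) + 2 * B * ((1 / 2 : ℝ) ^ i) + ε * (1 / 2 : ℝ) ^ i
        + (if i = i0 then B else 0) := by
    intro n
    have hex : ∃ i, n < q i := ⟨n + 1, lt_of_lt_of_le (Nat.lt_succ_self n) (hq.id_le (n + 1))⟩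
    classical
    refine ⟨Nat.find hex, fun i ε hε hi => ?_⟩
    have hh : (0 : ℝ) < (1 / 2) ^ i := by positivity
    rcases lt_trichotomy i (Nat.find hex) with hlt | heq | hgt
    · have hge : q i ≤ n := by
        have := Nat.find_min hex hlt
        omega
      have h3 : x i ^ n ≤ (1 / 2 : ℝ) ^ i :=
        (pow_le_pow_of_le_one (h0 i).le (h1 i).le hge).trans (hf2 i)
      rw [if_neg hlt.ne]
      have h4 := hA2 i n
      have h5 := mul_le_mul_of_nonneg_left h3 hB
      have h6 := mul_le_mul_of_nonneg_left h3 hε.le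
      have h7 : 0 ≤ B * (1 / 2 : ℝ) ^ i := by positivity
      nlinarith
    · rw [if_pos heq]
      have h4 := hA1 i n
      have h5 : B * (1 - x i ^ n) ≤ B := by
        have := pow_nonneg (h0 i).le n
        nlinarith
      have h6 := mul_nonneg hε.le (hpw i n)
      have h7 : 0 ≤ 2 * B * (1 / 2 : ℝ) ^ i := by positivity
      have h8 : 0 ≤ ε * (1 / 2 : ℝ) ^ i := by positivity
      linarith
    · rw [if_neg hgt.ne']
      have hlt : n < q (Nat.find hex) := Nat.find_spec hex
      obtain ⟨k, rfl⟩ : ∃ k, i = k + 1 := ⟨i - 1, by omega⟩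
      have h3 : n ≤ q k := hlt.le.trans (hq.monotone (by omega))
      have h4 : 1 - x (k + 1) ^ n ≤ (1 / 2 : ℝ) ^ (k + 1) := by
        have := pow_le_pow_of_le_one (h0 (k + 1)).le (h1 (k + 1)).le h3
        have h5 := hf1 k
        linarith
      have h5 := hA1 (k + 1) n
      have h6 := mul_le_mul_of_nonneg_left h4 hB
      have h7 := mul_nonneg hε.le (hpw (k + 1) n)
      have h8 : 0 ≤ B * (1 / 2 : ℝ) ^ (k + 1) := by positivity
      have h9 : 0 ≤ ε * (1 / 2 : ℝ) ^ (k + 1) := by positivity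
      linarith
  -- L_n → ∞
  set L : ℕ → ℝ := fun n => ∑' i, (1 - x i ^ n) with hLdef
  have hLtop : Tendsto L atTop atTop := by
    rw [tendsto_atTop]
    intro b
    obtain ⟨K, hK⟩ := exists_nat_gt (b + 1)
    have h3 : Tendsto (fun n => ∑ i ∈ range K, (1 - x i ^ n)) atTop (𝓝 (∑ i ∈ range K, (1 - 0))) :=
      tendsto_finsetSum _ fun i _ =>
        (tendsto_pow_atTop_nhds_zero_of_lt_one (h0 i).le (h1 i)).const_sub 1
    simp only [sub_zero, sum_const, card_range, nsmul_eq_mul, mul_one] at h3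
    filter_upwards [h3.eventually (lt_mem_nhds (show (K : ℝ) - 1 < K by linarith))] with n hn
    have h4 : ∑ i ∈ range K, (1 - x i ^ n) ≤ L n :=
      (hsumn n).sum_le_tsum _ (fun i _ => hpw i n)
    linarith
  refine ⟨?_, ?_, hsum⟩
  · simp only [hL, hS]
    have hmain : Tendsto (fun n => (∑' i, A i n) / L n) atTop (𝓝 0) := by
      rw [Metric.tendsto_atTop]
      intro ε hε
      have hε4 : 0 < ε / 4 := by positivity
      obtain ⟨K, hK⟩ := eventually_atTop.1 ((tendsto_order.1 ha.abs).2 (ε / 4) (by simpa using hε4))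
      set D : ℝ := K * B + 4 * B + 2 * (ε / 4) + B with hD
      have hD0 : 0 ≤ D := by positivity
      have hev := hLtop.eventually_gt_atTop (4 * (D + 1) / ε)
      obtain ⟨n0, hn0⟩ := eventually_atTop.1 hev
      refine ⟨n0, fun n hn => ?_⟩
      have hLn := hn0 n hn
      have hLpos : 0 < L n := lt_trans (by positivity) hLn
      obtain ⟨i0, hi0⟩ := hkey n
      have hbound : ∀ i, |A i n| ≤ (if i < K then B else 0) + (ε / 4 * (1 - x i ^ n)
          + 2 * B * ((1 / 2 : ℝ) ^ i) + ε / 4 * (1 / 2 : ℝ) ^ i + (if i = i0 then B else 0)) := by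
        intro i
        by_cases hi : i < K
        · rw [if_pos hi]
          have h4 := hA1 i n
          have h5 : B * (1 - x i ^ n) ≤ B := by
            have := pow_nonneg (h0 i).le n
            nlinarith
          have h6 := mul_nonneg hε4.le (hpw i n)
          have h7 : 0 ≤ 2 * B * (1 / 2 : ℝ) ^ i := by positivity
          have h8 : 0 ≤ ε / 4 * (1 / 2 : ℝ) ^ i := by positivity
          have h9 : (0 : ℝ) ≤ if i = i0 then B else 0 := by split_ifs <;> linarith
          linarith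
        · rw [if_neg hi, zero_add]
          exact hi0 i _ hε4 (hK i (not_lt.1 hi)).le
      have s1 : HasSum (fun i : ℕ => if i < K then B else 0) (K * B) := by
        have h7 : HasSum (fun i : ℕ => if i < K then B else 0)
            (∑ i ∈ range K, if i < K then B else 0) :=
          hasSum_sum_of_ne_finset_zero (by intro i hi; rw [if_neg (by simpa using hi)])
        have h8 : (∑ i ∈ range K, if i < K then B else 0) = K * B := by
          rw [sum_congr rfl (fun i hi => if_pos (mem_range.1 hi))]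
          simp
        rw [h8] at h7
        exact h7
      have s2 : HasSum (fun i => ε / 4 * (1 - x i ^ n)) (ε / 4 * L n) := (hsumn n).hasSum.mul_left _
      have sg : HasSum (fun i : ℕ => (1 / 2 : ℝ) ^ i) 2 := hasSum_geometric_two
      have s3 := sg.mul_left (2 * B)
      have s4 := sg.mul_left (ε / 4)
      have s5 : HasSum (fun i : ℕ => if i = i0 then B else 0) B := hasSum_ite_eq i0 B
      have stot := s1.add (((s2.add s3).add s4).add s5)
      have hsA : Summable (fun i => |A i n|) := Summable.of_nonneg_of_le (fun i => abs_nonneg _)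
        hbound stot.summable
      have hle : |∑' i, A i n| ≤ D + ε / 4 * L n := by
        have h3 : |∑' i, A i n| ≤ ∑' i, |A i n| := by
          have := norm_tsum_le_tsum_norm (f := fun i => A i n) (by simpa using hsA)
          simpa using this
        have h4 := hsA.tsum_le_tsum hbound stot.summable
        rw [stot.tsum_eq] at h4
        refine (h3.trans h4).trans (le_of_eq ?_)
        rw [hD]; ring
      rw [Real.dist_eq, sub_zero, abs_div, abs_of_pos hLpos, div_lt_iff₀ hLpos]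
      have h5 : 4 * (D + 1) < L n * ε := by rwa [div_lt_iff₀ hε] at hLn
      nlinarith
    exact hmain.comp (tendsto_add_atTop_nat 1)
  · simp only [hL]
    exact hLtop.comp (tendsto_add_atTop_nat 1)

/-- Abel means of a shifted sequence -/
lemma abel_sub_const {s : ℕ → ℝ} {B : ℝ} (hs : ∀ n, |s n| ≤ B) {x : ℝ} (h0 : 0 ≤ x) (h1 : x < 1)
    (c : ℝ) : abel (fun n => s n - c) x = abel s x - c := by
  unfold abel
  have e1 : ∀ m, x ^ m * (s m - c) = x ^ m * s m - x ^ m * c := fun m => by ring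
  simp only [e1]
  rw [(summable_pow_mul hs h0 h1).tsum_sub ((summable_geometric_of_lt_one h0 h1).mul_right c),
    tsum_mul_right, tsum_geometric_of_lt_one h0 h1]
  have : 1 - x ≠ 0 := by linarith
  field_simp

lemma Delta_eq {x : ℕ → ℝ} (h0 : ∀ i, 0 < x i) (h1 : ∀ i, x i < 1)
    (hsum : Summable (fun i => 1 - x i)) (k n : ℕ) :
    Summable (fun i => (1 - x i) ^ (k + 1) * x i ^ n) ∧
    Delta k (fun m => ∑' i, (1 - x i) * x i ^ m) n = ∑' i, (1 - x i) ^ (k + 1) * x i ^ n := by
  have hS : ∀ k n, Summable (fun i => (1 - x i) ^ (k + 1) * x i ^ n) := by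
    intro k n
    have hx1 : ∀ i, 0 < 1 - x i := fun i => by linarith [h1 i]
    refine Summable.of_nonneg_of_le
      (fun i => mul_nonneg (pow_nonneg (hx1 i).le _) (pow_nonneg (h0 i).le n)) (fun i => ?_) hsum
    calc (1 - x i) ^ (k + 1) * x i ^ n ≤ (1 - x i) ^ (k + 1) * 1 := by
          apply mul_le_mul_of_nonneg_left (pow_le_one₀ (h0 i).le (h1 i).le)
          exact pow_nonneg (hx1 i).le _
      _ = (1 - x i) ^ k * (1 - x i) := by rw [mul_one, pow_succ]
      _ ≤ 1 * (1 - x i) := by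
          apply mul_le_mul_of_nonneg_right _ (hx1 i).le
          exact pow_le_one₀ (hx1 i).le (by linarith [h0 i])
      _ = 1 - x i := one_mul _
  refine ⟨hS k n, ?_⟩
  induction k generalizing n with
  | zero => simp [Delta]
  | succ k ih =>
    rw [Delta, ih n, ih (n + 1), ← (hS k n).tsum_sub (hS k (n + 1))]
    refine tsum_congr fun i => ?_
    rw [pow_succ (x i) n, pow_succ (1 - x i) (k + 1)]; ring

/-- The lemma: Abel means converging along a sequence tending to `1` give a fully monotonic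
admissible weight with the same limit. -/
lemma exists_admissible {s : ℕ → ℝ} {B : ℝ} (hs : ∀ n, |s n| ≤ B) (y : ℕ → ℝ)
    (h0 : ∀ j, 0 < y j) (h1 : ∀ j, y j < 1) (hy : Tendsto y atTop (𝓝 1)) {a : ℝ}
    (ha : Tendsto (fun j => abel s (y j)) atTop (𝓝 a)) :
    ∃ l : ℕ → ℝ, AdmissibleWithLimit s l a ∧ FullyMonotonic l ∧ Antitone l := by
  obtain ⟨j, q, hj, hq, hq0, hf1, hf2⟩ := exists_fast y h0 h1 hy
  have hs' : ∀ n, |s n - a| ≤ B + |a| := fun n => (abs_sub _ _).trans (add_le_add (hs n) le_rfl)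
  have ha' : Tendsto (fun i => abel (fun n => s n - a) (y (j i))) atTop (𝓝 0) := by
    have h3 := (ha.comp hj.tendsto_atTop).sub_const a
    rw [sub_self] at h3
    refine h3.congr fun i => ?_
    rw [abel_sub_const hs (h0 _).le (h1 _)]; rfl
  obtain ⟨hmean, hdiv, hsum⟩ := main_centred hs' (x := fun i => y (j i)) (q := q)
    (fun i => h0 _) (fun i => h1 _) hq hq0 hf1 hf2 ha'
  set x : ℕ → ℝ := fun i => y (j i) with hx
  have hx0 : ∀ i, 0 < x i := fun i => h0 _
  have hx1 : ∀ i, x i < 1 := fun i => h1 _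
  set l : ℕ → ℝ := fun m => ∑' i, (1 - x i) * x i ^ m with hl
  have hD := Delta_eq hx0 hx1 hsum
  have hterm : ∀ k n i, 0 < (1 - x i) ^ (k + 1) * x i ^ n := fun k n i => by
    have := hx0 i
    have h2 : 0 < 1 - x i := by linarith [hx1 i]
    positivity
  have hposk : ∀ k n, 0 < Delta k l n := by
    intro k n
    rw [(hD k n).2]
    exact (hD k n).1.tsum_pos (fun i => (hterm k n i).le) 0 (hterm k n 0)
  have hlpos : ∀ n, 0 < l n := fun n => hposk 0 n
  refine ⟨l, ⟨hlpos, hdiv, ?_⟩, fun k _ n => (hposk k n).le, ?_⟩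
  · have h4 := hmean.add_const a
    rw [zero_add] at h4
    refine h4.congr fun n => ?_
    have hpos : 0 < ∑ m ∈ range (n + 1), l m :=
      sum_pos (fun m _ => hlpos m) ⟨0, by simp⟩
    rw [div_add' _ _ _ hpos.ne', mul_sum, ← sum_add_distrib]
    congr 1
    refine sum_congr rfl fun m _ => ?_
    rw [hl]; ring
  · refine antitone_nat_of_succ_le fun n => ?_
    have := hposk 1 n
    simp only [Delta] at this
    linarith

lemma abel_abs_le {s : ℕ → ℝ} {B : ℝ} (hs : ∀ n, |s n| ≤ B) {x : ℝ} (h0 : 0 < x) (h1 : x < 1) :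
    |abel s x| ≤ B := by
  have hx1 : 0 < 1 - x := by linarith
  rw [abel, abs_mul, abs_of_pos hx1]
  have hsm := summable_pow_mul hs h0.le h1
  have e2 : |∑' m, x ^ m * s m| ≤ B * (1 - x)⁻¹ := by
    rw [← tsum_geometric_of_lt_one h0.le h1, ← tsum_mul_left]
    refine (norm_tsum_le_tsum_norm hsm.norm).trans ?_
    refine hsm.norm.tsum_le_tsum (fun m => ?_)
      ((summable_geometric_of_lt_one h0.le h1).mul_left B)
    rw [norm_mul, Real.norm_eq_abs, Real.norm_eq_abs, abs_of_nonneg (pow_nonneg h0.le m), mul_comm]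
    exact mul_le_mul_of_nonneg_right (hs m) (pow_nonneg h0.le m)
  calc (1 - x) * |∑' m, x ^ m * s m| ≤ (1 - x) * (B * (1 - x)⁻¹) := by gcongr
    _ = B := by field_simp

/-- the reference points `1 - 1/(j+2)` -/
lemma ref_pts : (∀ j : ℕ, 0 < 1 - 1 / ((j : ℝ) + 2)) ∧ (∀ j : ℕ, 1 - 1 / ((j : ℝ) + 2) < 1) ∧
    Tendsto (fun j : ℕ => 1 - 1 / ((j : ℝ) + 2)) atTop (𝓝 1) := by
  refine ⟨fun j => ?_, fun j => ?_, ?_⟩
  · have : (1 : ℝ) / (j + 2) < 1 := by
      rw [div_lt_one (by positivity)]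
      have : (0 : ℝ) ≤ j := Nat.cast_nonneg j
      linarith
    linarith
  · have : (0 : ℝ) < 1 / (j + 2) := by positivity
    linarith
  · have h3 : Tendsto (fun j : ℕ => (j : ℝ) + 2) atTop atTop :=
      tendsto_atTop_add_const_right _ _ tendsto_natCast_atTop_atTop
    have h4 : Tendsto (fun j : ℕ => 1 / ((j : ℝ) + 2)) atTop (𝓝 0) := by
      simpa [one_div] using h3.inv_tendsto_atTop.congr (fun j => by simp)
    simpa using h4.const_sub 1

end Pool.Agent.X84.AbelWeights
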