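import Mathlib

set_option autoImplicit false
open Filter Topology Finset

namespace Pool.Agent.X84.AvgShadow

/-- `(x_i)` is a `δ`-average-pseudo-orbit of `f`. -/
def IsAveragePseudoOrbit {X : Type*} [MetricSpace X] (f : X → X) (δ : ℝ) (x : ℕ → X) : Prop :=
  ∃ N : ℕ, ∀ n ≥ N, ∀ k : ℕ,
    (∑ i ∈ range n, dist (f (x (i + k))) (x (i + k + 1))) / (n : ℝ) < δ

/-- `(x_i)` is `ε`-shadowed in average by `z`. -/
def ShadowedInAverage {X : Type*} [MetricSpace X] (f : X → X) (ε : ℝ) (z : X) (x : ℕ → X) :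
    Prop :=
  limsup (fun n : ℕ => (∑ i ∈ range n, dist (f^[i] z) (x i)) / (n : ℝ)) atTop < ε

/-- The average shadowing property. -/
def AverageShadowing {X : Type*} [MetricSpace X] (f : X → X) : Prop :=
  ∀ ε : ℝ, 0 < ε → ∃ δ : ℝ, 0 < δ ∧ ∀ x : ℕ → X, IsAveragePseudoOrbit f δ x →
    ∃ z : X, ShadowedInAverage f ε z x

/-- `(x_i)` is an asymptotic average pseudo-orbit of `f`. -/
def IsAsymptoticAveragePseudoOrbit {X : Type*} [MetricSpace X] (f : X → X) (x : ℕ → X) : Prop :=
  Tendsto (fun n : ℕ => (∑ i ∈ range n, dist (f (x i)) (x (i + 1))) / (n : ℝ)) atTop (𝓝 0)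

/-- `(x_i)` is asymptotically shadowed in average by `z`. -/
def AsymptoticallyShadowed {X : Type*} [MetricSpace X] (f : X → X) (z : X) (x : ℕ → X) : Prop :=
  Tendsto (fun n : ℕ => (∑ i ∈ range n, dist (f^[i] z) (x i)) / (n : ℝ)) atTop (𝓝 0)

/-- The asymptotic average shadowing property. -/
def AsymptoticAverageShadowing {X : Type*} [MetricSpace X] (f : X → X) : Prop :=
  ∀ x : ℕ → X, IsAsymptoticAveragePseudoOrbit f x → ∃ z : X, AsymptoticallyShadowed f z x

variable {X Y : Type*} [MetricSpace X] [CompactSpace X] [MetricSpace Y] [CompactSpace Y]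

lemma exists_diam (X : Type*) [MetricSpace X] [CompactSpace X] :
    ∃ D : ℝ, 0 ≤ D ∧ ∀ a b : X, dist a b ≤ D :=
  ⟨Metric.diam (Set.univ : Set X), Metric.diam_nonneg, fun _ _ =>
    Metric.dist_le_diam_of_mem isCompact_univ.isBounded (Set.mem_univ _) (Set.mem_univ _)⟩

/-- linear form of uniform continuity -/
lemma exists_lin {h : X → Y} (hh : Continuous h) {η : ℝ} (hη : 0 < η) :
    ∃ C : ℝ, 0 ≤ C ∧ ∀ a b : X, dist (h a) (h b) ≤ η + C * dist a b := by
  obtain ⟨D, hD0, hD⟩ := exists_diam Y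
  have huc := CompactSpace.uniformContinuous_of_continuous hh
  rw [Metric.uniformContinuous_iff] at huc
  obtain ⟨θ, hθ, h1⟩ := huc η hη
  refine ⟨D / θ, by positivity, fun a b => ?_⟩
  rcases lt_or_ge (dist a b) θ with hlt | hge
  · have := h1 hlt
    have h2 : 0 ≤ D / θ * dist a b := by positivity
    linarith
  · have h2 : D ≤ D / θ * dist a b := by
      calc D = D / θ * θ := by field_simp
        _ ≤ D / θ * dist a b := by gcongr
    have := hD (h a) (h b)
    linarith

/-- window sums -/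
noncomputable def W (m : ℕ) (e : ℕ → ℝ) (i : ℕ) : ℝ := ∑ k ∈ range i, if i < k + m then e k else 0

lemma sum_W_le (m : ℕ) {e : ℕ → ℝ} (he : ∀ k, 0 ≤ e k) (n : ℕ) :
    ∑ i ∈ range n, W m e i ≤ m * ∑ k ∈ range n, e k := by
  have h1 : ∀ i ∈ range n, W m e i ≤ ∑ k ∈ range n, if (k ≤ i ∧ i < k + m) then e k else 0 := by
    intro i hi
    have hin := mem_range.1 hi
    have h2 : W m e i ≤ ∑ k ∈ range i, if (k ≤ i ∧ i < k + m) then e k else 0 := by
      refine sum_le_sum fun k hk => ?_
      have := mem_range.1 hk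
      by_cases h : i < k + m
      · rw [if_pos h, if_pos ⟨this.le, h⟩]
      · rw [if_neg h, if_neg (fun hc => h hc.2)]
    refine h2.trans (sum_le_sum_of_subset_of_nonneg ?_ ?_)
    · intro k hk; rw [mem_range] at hk ⊢; omega
    · intro k _ _
      split_ifs
      · exact he k
      · exact le_rfl
  refine (sum_le_sum h1).trans ?_
  rw [sum_comm, mul_sum]
  refine sum_le_sum fun k _ => ?_
  rw [← sum_filter]
  rw [sum_const, nsmul_eq_mul]
  apply mul_le_mul_of_nonneg_right _ (he k)
  have : (range n).filter (fun i => k ≤ i ∧ i < k + m) ⊆ Ico k (k + m) := by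
    intro i hi
    rw [mem_filter] at hi
    rw [mem_Ico]; exact hi.2
  have h3 := card_le_card this
  rw [Nat.card_Ico, Nat.add_sub_cancel_left] at h3
  exact_mod_cast h3

/-- following an exact orbit for `t` steps -/
lemma exists_follow {g : Y → Y} (hg : Continuous g) (t : ℕ) :
    ∀ η : ℝ, 0 < η → ∃ C : ℝ, 0 ≤ C ∧ ∀ (y : ℕ → Y) (s : ℕ),
      dist (g^[t] (y s)) (y (s + t)) ≤
        η + C * ∑ r ∈ range t, dist (g (y (s + r))) (y (s + r + 1)) := by
  induction t with
  | zero =>
    intro η hη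
    exact ⟨0, le_rfl, fun y s => by simpa using hη.le⟩
  | succ t ih =>
    intro η hη
    obtain ⟨C₁, hC₁, h1⟩ := exists_lin hg (η := η / 2) (by positivity)
    obtain ⟨C₂, hC₂, h2⟩ := ih (η / (2 * (C₁ + 1))) (by positivity)
    refine ⟨C₁ * C₂ + 1, by positivity, fun y s => ?_⟩
    rw [Function.iterate_succ_apply', sum_range_succ]
    set S := ∑ r ∈ range t, dist (g (y (s + r))) (y (s + r + 1)) with hS
    have hS0 : 0 ≤ S := sum_nonneg fun _ _ => dist_nonneg
    set e := dist (g (y (s + t))) (y (s + t + 1)) with he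
    have he0 : 0 ≤ e := dist_nonneg
    have h3 : dist (g (g^[t] (y s))) (y (s + (t + 1))) ≤
        dist (g (g^[t] (y s))) (g (y (s + t))) + e := dist_triangle _ _ _
    have h4 := h1 (g^[t] (y s)) (y (s + t))
    have h5 := mul_le_mul_of_nonneg_left (h2 y s) hC₁
    have h6 : C₁ * (η / (2 * (C₁ + 1))) ≤ η / 2 := by
      rw [mul_div_assoc', div_le_div_iff₀ (by positivity) (by norm_num)]
      nlinarith
    have h7 : 0 ≤ C₁ * C₂ * e := by positivity
    nlinarith

/-- block version: comparison of `y` with exact orbits on blocks of length `m` -/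
lemma exists_block {g : Y → Y} (hg : Continuous g) (m : ℕ) (hm : 0 < m) {η : ℝ} (hη : 0 < η) :
    ∃ C : ℝ, 0 ≤ C ∧ ∀ (y : ℕ → Y) (i : ℕ),
      dist (g^[i % m] (y (i - i % m))) (y i) ≤
        η + C * W m (fun k => dist (g (y k)) (y (k + 1))) i := by
  have h := fun t => exists_follow hg t η hη
  choose C hC0 hC using h
  refine ⟨∑ t ∈ range m, C t, sum_nonneg fun t _ => hC0 t, fun y i => ?_⟩
  have hlt : i % m < m := Nat.mod_lt _ hm
  have hle : i % m ≤ i := Nat.mod_le _ _
  have h1 := hC (i % m) y (i - i % m)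
  rw [Nat.sub_add_cancel hle] at h1
  refine h1.trans ?_
  have hCle : C (i % m) ≤ ∑ t ∈ range m, C t :=
    single_le_sum (fun t _ => hC0 t) (mem_range.2 hlt)
  have hW : ∑ r ∈ range (i % m), dist (g (y (i - i % m + r))) (y (i - i % m + r + 1))
      ≤ W m (fun k => dist (g (y k)) (y (k + 1))) i := by
    have e1 : ∑ r ∈ range (i % m), dist (g (y (i - i % m + r))) (y (i - i % m + r + 1))
        = ∑ k ∈ Ico (i - i % m) i, if i < k + m then dist (g (y k)) (y (k + 1)) else 0 := by
      rw [sum_Ico_eq_sum_range]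
      have : i - (i - i % m) = i % m := by omega
      rw [this]
      refine sum_congr rfl fun r hr => ?_
      rw [if_pos (by omega)]
    rw [e1]
    unfold W
    apply sum_le_sum_of_subset_of_nonneg
    · intro k hk
      rw [mem_Ico] at hk
      rw [mem_range]; exact hk.2
    · intro k _ _
      split_ifs
      · exact dist_nonneg
      · exact le_rfl
  have hW0 : 0 ≤ ∑ r ∈ range (i % m), dist (g (y (i - i % m + r))) (y (i - i % m + r + 1)) :=
    sum_nonneg fun _ _ => dist_nonneg
  have := mul_le_mul hCle hW hW0 (sum_nonneg fun t _ => hC0 t)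
  linarith

lemma sum_dvd_le (m n k : ℕ) (hm : 0 < m) :
    (∑ i ∈ range n, if m ∣ i + k + 1 then (1 : ℝ) else 0) ≤ n / m + 1 := by
  have h1 : ∀ n : ℕ, (∑ i ∈ range n, if m ∣ i + k + 1 then 1 else 0) = (n + k) / m - k / m ∧
      k / m ≤ (n + k) / m := by
    intro n
    refine ⟨?_, Nat.div_le_div_right (by omega)⟩
    induction n with
    | zero => simp
    | succ n ih =>
      rw [sum_range_succ, ih]
      have h2 : (n + 1 + k) / m = (n + k) / m + if m ∣ n + k + 1 then 1 else 0 := by
        have : n + 1 + k = n + k + 1 := by ring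
        rw [this, Nat.succ_div]
      have h3 : k / m ≤ (n + k) / m := Nat.div_le_div_right (by omega)
      rw [h2]; omega
  have h2 : (∑ i ∈ range n, if m ∣ i + k + 1 then (1 : ℝ) else 0)
      = (((∑ i ∈ range n, if m ∣ i + k + 1 then 1 else 0 : ℕ)) : ℝ) := by
    push_cast; rfl
  rw [h2, (h1 n).1, Nat.cast_sub (h1 n).2]
  have hm' : (0 : ℝ) < m := by exact_mod_cast hm
  have h3 : (((n + k) / m : ℕ) : ℝ) ≤ (n + k : ℝ) / m := by
    have := @Nat.cast_div_le ℝ _ _ _ (n + k) m
    push_cast at this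
    exact this
  have h4 : (k : ℝ) / m ≤ ((k / m : ℕ) : ℝ) + 1 := by
    rw [div_le_iff₀ hm']
    have h5 := Nat.div_add_mod k m
    have h6 := Nat.mod_lt k hm
    have h7 : k < m * (k / m + 1) := by rw [mul_add]; omega
    have h8 : (k : ℝ) < m * ((k / m : ℕ) + 1) := by exact_mod_cast h7
    linarith
  have h5 : (n + k : ℝ) / m = n / m + k / m := add_div _ _ _
  linarith

/-- **Q1.** -/
theorem averageShadowing_factor {f : X → X} {g : Y → Y} {π : X → Y}
    (hg : Continuous g) (hπ : Continuous π) (hs : Function.Surjective π)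
    (hc : ∀ x, π (f x) = g (π x)) (hA : AverageShadowing f) : AverageShadowing g := by
  intro ε hε
  obtain ⟨C₁, hC₁, h1⟩ := exists_lin hπ (η := ε / 4) (by positivity)
  obtain ⟨δ', hδ', hsh⟩ := hA (ε / (4 * (C₁ + 1))) (by positivity)
  obtain ⟨D, hD0, hD⟩ := exists_diam X
  obtain ⟨m₀, hm₀⟩ := exists_nat_gt (2 * D / δ')
  set m := m₀ + 1 with hmdef
  have hmpos : 0 < m := Nat.succ_pos _
  have hm' : (0 : ℝ) < m := by exact_mod_cast hmpos
  have hDm : D / m < δ' / 2 := by
    rw [div_lt_iff₀ hδ'] at hm₀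
    rw [div_lt_iff₀ hm']
    have : (m₀ : ℝ) ≤ m := by rw [hmdef]; push_cast; linarith
    nlinarith
  obtain ⟨C₂, hC₂, h2⟩ := exists_block hg m hmpos (η := ε / 8) (by positivity)
  refine ⟨ε / (8 * (C₂ * m + 1)), by positivity, fun y hy => ?_⟩
  choose σ hσ using hs
  set x : ℕ → X := fun i => f^[i % m] (σ (y (i - i % m))) with hx
  have hπit : ∀ (t : ℕ) (a : X), π (f^[t] a) = g^[t] (π a) := by
    intro t a
    induction t with
    | zero => rfl
    | succ t ih => rw [Function.iterate_succ_apply', Function.iterate_succ_apply', hc, ih]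
  have hπx : ∀ i, π (x i) = g^[i % m] (y (i - i % m)) := fun i => by
    rw [hx]; simp only [hπit, hσ]
  -- x is a δ'-average-pseudo-orbit
  have hjump : ∀ j, dist (f (x j)) (x (j + 1)) ≤ D * if m ∣ j + 1 then 1 else 0 := by
    intro j
    by_cases h : m ∣ j + 1
    · rw [if_pos h, mul_one]; exact hD _ _
    · rw [if_neg h, mul_zero]
      have e1 : (j + 1) % m = j % m + 1 := by
        have h5 : (j + 1) / m = j / m := by rw [Nat.succ_div, if_neg h, add_zero]
        have h6 := Nat.div_add_mod j m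
        have h7 := Nat.div_add_mod (j + 1) m
        rw [h5] at h7
        omega
      have e2 : j + 1 - (j + 1) % m = j - j % m := by rw [e1]; omega
      have e3 : f (x j) = x (j + 1) := by
        rw [hx]; simp only
        rw [e2, e1, Function.iterate_succ_apply']
      rw [e3, dist_self]
  have hxpo : IsAveragePseudoOrbit f δ' x := by
    obtain ⟨N₀, hN₀⟩ := exists_nat_gt (2 * D / δ')
    refine ⟨N₀ + 1, fun n hn k => ?_⟩
    have hn' : (0 : ℝ) < n := by
      have : 0 < n := by omega
      exact_mod_cast this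
    have hsum : ∑ i ∈ range n, dist (f (x (i + k))) (x (i + k + 1)) ≤ D * (n / m + 1) := by
      calc ∑ i ∈ range n, dist (f (x (i + k))) (x (i + k + 1))
          ≤ ∑ i ∈ range n, D * (if m ∣ i + k + 1 then (1 : ℝ) else 0) :=
            sum_le_sum fun i _ => hjump (i + k)
        _ = D * ∑ i ∈ range n, (if m ∣ i + k + 1 then (1 : ℝ) else 0) := by rw [mul_sum]
        _ ≤ _ := mul_le_mul_of_nonneg_left (sum_dvd_le m n k hmpos) hD0
    rw [div_lt_iff₀ hn']
    have h3 : D < δ' / 2 * n := by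
      rw [div_lt_iff₀ hδ'] at hN₀
      have : (N₀ : ℝ) ≤ n := by exact_mod_cast (by omega : N₀ ≤ n)
      nlinarith
    have h4 : D * (n / m) ≤ δ' / 2 * n := by
      have : D * (n / m) = D / m * n := by ring
      rw [this]
      exact mul_le_mul_of_nonneg_right hDm.le hn'.le
    nlinarith
  obtain ⟨z, hz⟩ := hsh x hxpo
  refine ⟨π z, ?_⟩
  -- boundedness of averages
  have hbdd : IsBoundedUnder (· ≤ ·) atTop
      (fun n : ℕ => (∑ i ∈ range n, dist (f^[i] z) (x i)) / (n : ℝ)) := by
    refine isBoundedUnder_of ⟨D, fun n => ?_⟩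
    rcases Nat.eq_zero_or_pos n with h | h
    · subst h; simpa using hD0
    · have hn' : (0 : ℝ) < n := by exact_mod_cast h
      rw [div_le_iff₀ hn']
      calc _ ≤ ∑ i ∈ range n, D := sum_le_sum fun i _ => hD _ _
        _ = D * n := by rw [sum_const, card_range, nsmul_eq_mul, mul_comm]
  have hev := eventually_lt_of_limsup_lt hz hbdd
  obtain ⟨N, hN⟩ := hy
  have hfin : ∀ᶠ n : ℕ in atTop,
      (∑ i ∈ range n, dist (g^[i] (π z)) (y i)) / (n : ℝ) ≤ 3 * ε / 4 := by
    filter_upwards [hev, eventually_ge_atTop N, eventually_gt_atTop 0] with n hn1 hn2 hn3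
    have hn' : (0 : ℝ) < n := by exact_mod_cast hn3
    rw [div_lt_iff₀ hn'] at hn1
    have he := hN n hn2 0
    simp only [add_zero] at he
    rw [div_lt_iff₀ hn'] at he
    rw [div_le_iff₀ hn']
    set e : ℕ → ℝ := fun k => dist (g (y k)) (y (k + 1)) with hedef
    have hpt : ∀ i ∈ range n, dist (g^[i] (π z)) (y i) ≤
        (ε / 4 + C₁ * dist (f^[i] z) (x i)) + (ε / 8 + C₂ * W m e i) := by
      intro i _
      have h3 := h1 (f^[i] z) (x i)
      rw [hπit] at h3
      have h4 := h2 y i
      rw [← hπx i] at h4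
      exact (dist_triangle _ (π (x i)) _).trans (add_le_add h3 h4)
    refine (sum_le_sum hpt).trans ?_
    rw [sum_add_distrib, sum_add_distrib, sum_add_distrib, ← mul_sum, ← mul_sum, sum_const,
      sum_const, card_range, nsmul_eq_mul, nsmul_eq_mul]
    have h5 := sum_W_le m (e := e) (fun _ => dist_nonneg) n
    have h6 : C₁ * ∑ i ∈ range n, dist (f^[i] z) (x i) ≤ ε / 4 * n := by
      calc C₁ * ∑ i ∈ range n, dist (f^[i] z) (x i) ≤ C₁ * (ε / (4 * (C₁ + 1)) * n) :=
            mul_le_mul_of_nonneg_left hn1.le hC₁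
        _ = (C₁ * (ε / (4 * (C₁ + 1)))) * n := by ring
        _ ≤ ε / 4 * n := by
            apply mul_le_mul_of_nonneg_right _ hn'.le
            rw [mul_div_assoc', div_le_div_iff₀ (by positivity) (by norm_num)]
            nlinarith
    have h7 : C₂ * ∑ i ∈ range n, W m e i ≤ ε / 8 * n := by
      calc C₂ * ∑ i ∈ range n, W m e i ≤ C₂ * (m * ∑ k ∈ range n, e k) :=
            mul_le_mul_of_nonneg_left h5 hC₂
        _ ≤ C₂ * (m * (ε / (8 * (C₂ * m + 1)) * n)) := by
            apply mul_le_mul_of_nonneg_left _ hC₂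
            exact mul_le_mul_of_nonneg_left he.le hm'.le
        _ = (C₂ * m * (ε / (8 * (C₂ * m + 1)))) * n := by ring
        _ ≤ ε / 8 * n := by
            apply mul_le_mul_of_nonneg_right _ hn'.le
            rw [mul_div_assoc', div_le_div_iff₀ (by positivity) (by norm_num)]
            have : 0 ≤ C₂ * m := by positivity
            nlinarith
    nlinarith
  have h3 : limsup (fun n : ℕ => (∑ i ∈ range n, dist (g^[i] (π z)) (y i)) / (n : ℝ)) atTop
      ≤ 3 * ε / 4 := by
    apply limsup_le_of_le _ hfin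
    refine isCoboundedUnder_le_of_le atTop (x := 0) fun n => ?_
    exact div_nonneg (sum_nonneg fun _ _ => dist_nonneg) (Nat.cast_nonneg _)
  unfold ShadowedInAverage
  linarith

/-- diagonal lemma -/
lemma exists_diag {b : ℕ → ℕ → ℝ} {D : ℝ} (hD : 0 ≤ D) (hb0 : ∀ m i, 0 ≤ b m i)
    (hbD : ∀ m i, b m i ≤ D) {c : ℕ → ℝ} (hc0 : ∀ m, 0 ≤ c m) (hc : Tendsto c atTop (𝓝 0))
    (hb : ∀ m, ∀ᶠ n : ℕ in atTop, ∑ i ∈ range n, b m i ≤ c m * n) :
    ∃ M : ℕ → ℕ, Monotone M ∧ Tendsto M atTop atTop ∧ (∀ n, M n * M n ≤ n) ∧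
      Tendsto (fun n : ℕ => (∑ i ∈ range n, b (M i) i) / (n : ℝ)) atTop (𝓝 0) := by
  have step : ∀ (k a : ℕ), ∃ a', a < a' ∧ (k + 1) * a ≤ a' ∧ (k + 1) * (k + 1) ≤ a' ∧
      ∀ n ≥ a', ∑ i ∈ range n, b (k + 1) i ≤ c (k + 1) * n := by
    intro k a
    obtain ⟨n₀, hn₀⟩ := eventually_atTop.1 (hb (k + 1))
    refine ⟨n₀ + (a + 1) + (k + 1) * a + (k + 1) * (k + 1), ?_, ?_, ?_, ?_⟩
    · omega
    · omega
    · omega
    · intro n hn; exact hn₀ n (by omega)
  choose nxt s1 s2 s3 s4 using step
  obtain ⟨N, hN0, hNs⟩ : ∃ N : ℕ → ℕ, N 0 = 0 ∧ ∀ k, N (k + 1) = nxt k (N k) :=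
    ⟨fun k => Nat.rec 0 (fun k a => nxt k a) k, rfl, fun _ => rfl⟩
  have hNmono : StrictMono N := strictMono_nat_of_lt_succ fun k => by rw [hNs]; exact s1 _ _
  have hNsq : ∀ k, k * k ≤ N k := by
    intro k
    cases k with
    | zero => simp
    | succ k => rw [hNs]; exact s3 _ _
  have hNr : ∀ k, (k + 1) * N k ≤ N (k + 1) := fun k => by rw [hNs]; exact s2 _ _
  have hNb : ∀ k, ∀ n ≥ N (k + 1), ∑ i ∈ range n, b (k + 1) i ≤ c (k + 1) * n := fun k => by
    rw [hNs]; exact s4 _ _
  let M : ℕ → ℕ := fun n => Nat.findGreatest (fun k => N k ≤ n) n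
  have hM1 : ∀ n, N (M n) ≤ n := by
    intro n
    have h0 : N 0 ≤ n := by rw [hN0]; exact Nat.zero_le n
    exact Nat.findGreatest_spec (P := fun k => N k ≤ n) (m := 0) (n := n) (Nat.zero_le n) h0
  have hM2 : ∀ n, n < N (M n + 1) := by
    intro n
    by_contra hcon
    push Not at hcon
    have hle : M n + 1 ≤ n := (hNmono.id_le (M n + 1)).trans hcon
    exact Nat.findGreatest_is_greatest (P := fun k => N k ≤ n) (Nat.lt_succ_self (M n)) hle hcon
  have hMle : ∀ n k, N k ≤ n → k ≤ M n := by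
    intro n k hk
    by_contra hcon
    push Not at hcon
    have := hNmono.monotone (show M n + 1 ≤ k by omega)
    have h2 := hM2 n
    omega
  have hMmono : Monotone M := fun a b hab => hMle b (M a) ((hM1 a).trans hab)
  have hMtop : Tendsto M atTop atTop := by
    rw [tendsto_atTop]
    intro k
    filter_upwards [eventually_ge_atTop (N k)] with n hn
    exact hMle n k hn
  refine ⟨M, hMmono, hMtop, fun n => (hNsq _).trans (hM1 n), ?_⟩
  -- bound
  have hbound : ∀ n, ∀ k, M n = k + 2 →
      ∑ i ∈ range n, b (M i) i ≤ (D / (k + 2 : ℝ) + c (k + 1) + c (k + 2)) * n := by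
    intro n k hk
    have hn1 : N (k + 2) ≤ n := by rw [← hk]; exact hM1 n
    have hn2 : N (k + 1) ≤ N (k + 2) := hNmono.monotone (by omega)
    have hpt : ∀ i ∈ range n, b (M i) i ≤ (if i < N (k + 1) then D else 0)
        + (if i < N (k + 2) then b (k + 1) i else 0) + b (k + 2) i := by
      intro i hi
      have hin := mem_range.1 hi
      have hMi : M i ≤ k + 2 := by rw [← hk]; exact hMmono hin.le
      have t1 : (0 : ℝ) ≤ if i < N (k + 1) then D else 0 := by split_ifs <;> linarith
      have t2 : (0 : ℝ) ≤ if i < N (k + 2) then b (k + 1) i else 0 := by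
        split_ifs
        · exact hb0 _ _
        · exact le_rfl
      have t3 := hb0 (k + 2) i
      by_cases h1 : i < N (k + 1)
      · rw [if_pos h1]
        have := hbD (M i) i
        linarith
      · by_cases h2 : i < N (k + 2)
        · have h3 : M i = k + 1 := by
            have h4 : k + 1 ≤ M i := hMle i (k + 1) (not_lt.1 h1)
            have h5 : ¬ k + 2 ≤ M i := by
              intro h6
              have := (hNmono.monotone h6).trans (hM1 i)
              omega
            omega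
          rw [h3, if_neg h1, if_pos h2]
          linarith
        · have h3 : M i = k + 2 := le_antisymm hMi (hMle i (k + 2) (not_lt.1 h2))
          rw [h3]
          linarith
    refine (sum_le_sum hpt).trans ?_
    rw [sum_add_distrib, sum_add_distrib]
    have hn' : (N (k + 2) : ℝ) ≤ n := by exact_mod_cast hn1
    have e1 : ∑ i ∈ range n, (if i < N (k + 1) then D else 0) ≤ D / (k + 2 : ℝ) * n := by
      have h1 : ∑ i ∈ range n, (if i < N (k + 1) then D else 0) = N (k + 1) * D := by
        rw [← sum_filter]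
        have : (range n).filter (fun i => i < N (k + 1)) = range (N (k + 1)) := by
          ext i; simp only [mem_filter, mem_range]; omega
        rw [this, sum_const, card_range, nsmul_eq_mul]
      rw [h1]
      have h2 := hNr (k + 1)
      have h3 : ((k : ℝ) + 2) * N (k + 1) ≤ n := by
        have : ((k + 1 + 1 : ℕ) : ℝ) * N (k + 1) ≤ N (k + 2) := by exact_mod_cast h2
        push_cast at this
        linarith
      have hk2 : (0 : ℝ) < k + 2 := by positivity
      rw [div_mul_eq_mul_div, le_div_iff₀ hk2]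
      nlinarith
    have e2 : ∑ i ∈ range n, (if i < N (k + 2) then b (k + 1) i else 0) ≤ c (k + 1) * n := by
      have h1 : ∑ i ∈ range n, (if i < N (k + 2) then b (k + 1) i else 0)
          = ∑ i ∈ range (N (k + 2)), b (k + 1) i := by
        rw [← sum_filter]
        have : (range n).filter (fun i => i < N (k + 2)) = range (N (k + 2)) := by
          ext i; simp only [mem_filter, mem_range]; omega
        rw [this]
      rw [h1]
      refine (hNb k _ hn2).trans ?_
      exact mul_le_mul_of_nonneg_left hn' (hc0 _)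
    have e3 : ∑ i ∈ range n, b (k + 2) i ≤ c (k + 2) * n := hNb (k + 1) n hn1
    nlinarith
  have hφ : Tendsto (fun k : ℕ => D / (k + 2 : ℝ) + c (k + 1) + c (k + 2)) atTop (𝓝 0) := by
    have h1 : Tendsto (fun k : ℕ => D / (k + 2 : ℝ)) atTop (𝓝 0) :=
      (tendsto_const_nhds).div_atTop
        (tendsto_atTop_add_const_right _ _ tendsto_natCast_atTop_atTop)
    have h2 := hc.comp (tendsto_add_atTop_nat 1)
    have h3 := hc.comp (tendsto_add_atTop_nat 2)
    simpa using (h1.add h2).add h3
  have hM2' : Tendsto (fun n => M n - 2) atTop atTop := (tendsto_sub_atTop_nat 2).comp hMtop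
  refine squeeze_zero' (Eventually.of_forall fun n =>
    div_nonneg (sum_nonneg fun _ _ => hb0 _ _) (Nat.cast_nonneg _)) ?_ (hφ.comp hM2')
  filter_upwards [hMtop.eventually_ge_atTop 2, eventually_gt_atTop 0] with n hn hn0
  have hn' : (0 : ℝ) < n := by exact_mod_cast hn0
  rw [div_le_iff₀ hn']
  have := hbound n (M n - 2) (by omega)
  exact this

/-- **Q2.** -/
theorem asymptoticAverageShadowing_factor {f : X → X} {g : Y → Y} {π : X → Y}
    (hg : Continuous g) (hπ : Continuous π) (hs : Function.Surjective π)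
    (hc : ∀ x, π (f x) = g (π x)) (hA : AsymptoticAverageShadowing f) :
    AsymptoticAverageShadowing g := by
  intro y hy
  obtain ⟨DX, hDX0, hDX⟩ := exists_diam X
  obtain ⟨DY, hDY0, hDY⟩ := exists_diam Y
  set e : ℕ → ℝ := fun k => dist (g (y k)) (y (k + 1)) with hedef
  -- scale `m + 1`
  set b : ℕ → ℕ → ℝ := fun m i => dist (g^[i % (m + 1)] (y (i - i % (m + 1)))) (y i)
    + (if (m + 1) ∣ i + 1 then (1 : ℝ) else 0) with hbdef
  have hb0 : ∀ m i, 0 ≤ b m i := fun m i => by
    simp only [hbdef]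
    have : (0 : ℝ) ≤ if (m + 1) ∣ i + 1 then (1 : ℝ) else 0 := by split_ifs <;> norm_num
    exact add_nonneg dist_nonneg this
  have hbD : ∀ m i, b m i ≤ DY + 1 := fun m i => by
    simp only [hbdef]
    have : (if (m + 1) ∣ i + 1 then (1 : ℝ) else 0) ≤ 1 := by split_ifs <;> norm_num
    exact add_le_add (hDY _ _) this
  have hb : ∀ m, ∀ᶠ n : ℕ in atTop, ∑ i ∈ range n, b m i ≤ (2 / (m + 1 : ℝ)) * n := by
    intro m
    have hm' : (0 : ℝ) < (m : ℝ) + 1 := by positivity
    obtain ⟨C, hC, h2⟩ := exists_block hg (m + 1) (Nat.succ_pos m) (η := 1 / (4 * (m + 1 : ℝ)))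
      (by positivity)
    have hpos : (0 : ℝ) < 1 / (4 * (m + 1 : ℝ)) / (C * (m + 1) + 1) := by positivity
    have hy' : Tendsto (fun n : ℕ => (∑ i ∈ range n, e i) / (n : ℝ)) atTop (𝓝 0) := hy
    filter_upwards [hy'.eventually (gt_mem_nhds hpos), eventually_gt_atTop 0,
      eventually_ge_atTop (4 * (m + 1))] with n hn1 hn2 hn3
    have hn' : (0 : ℝ) < n := by exact_mod_cast hn2
    rw [div_lt_iff₀ hn'] at hn1
    simp only [hbdef]
    rw [sum_add_distrib]
    have h3 : ∑ i ∈ range n, dist (g^[i % (m + 1)] (y (i - i % (m + 1)))) (y i)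
        ≤ (1 / (2 * (m + 1 : ℝ))) * n := by
      calc _ ≤ ∑ i ∈ range n, (1 / (4 * (m + 1 : ℝ)) + C * W (m + 1) e i) :=
            sum_le_sum fun i _ => h2 y i
        _ = n * (1 / (4 * (m + 1 : ℝ))) + C * ∑ i ∈ range n, W (m + 1) e i := by
            rw [sum_add_distrib, ← mul_sum, sum_const, card_range, nsmul_eq_mul]
        _ ≤ n * (1 / (4 * (m + 1 : ℝ))) + C * (((m + 1 : ℕ) : ℝ) * ∑ k ∈ range n, e k) := by
            have := mul_le_mul_of_nonneg_left
              (sum_W_le (m + 1) (e := e) (fun _ => dist_nonneg) n) hC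
            linarith
        _ ≤ n * (1 / (4 * (m + 1 : ℝ))) + (1 / (4 * (m + 1 : ℝ))) * n := by
            have h5 : C * (((m + 1 : ℕ) : ℝ) * ∑ k ∈ range n, e k)
                ≤ C * (((m + 1 : ℕ) : ℝ) * (1 / (4 * (m + 1 : ℝ)) / (C * (m + 1) + 1) * n)) := by
              apply mul_le_mul_of_nonneg_left _ hC
              exact mul_le_mul_of_nonneg_left hn1.le (Nat.cast_nonneg _)
            have h6 : C * (((m + 1 : ℕ) : ℝ) * (1 / (4 * (m + 1 : ℝ)) / (C * (m + 1) + 1) * n))
                = (C * (m + 1) / (C * (m + 1) + 1)) * ((1 / (4 * (m + 1 : ℝ))) * n) := by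
              push_cast; ring
            have h7 : C * (m + 1) / (C * (m + 1) + 1) ≤ 1 := by
              rw [div_le_one (by positivity)]; linarith
            have h8 : 0 ≤ (1 / (4 * (m + 1 : ℝ))) * n := by positivity
            have h9 := mul_le_mul_of_nonneg_right h7 h8
            linarith
        _ = (1 / (2 * (m + 1 : ℝ))) * n := by
            field_simp; norm_num
    have h4 := sum_dvd_le (m + 1) n 0 (Nat.succ_pos m)
    simp only [add_zero] at h4
    have h5 : (1 : ℝ) ≤ (1 / (4 * (m + 1 : ℝ))) * n := by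
      rw [div_mul_eq_mul_div, le_div_iff₀ (by positivity)]
      have : ((4 * (m + 1) : ℕ) : ℝ) ≤ n := by exact_mod_cast hn3
      push_cast at this
      linarith
    have h6 : (n : ℝ) / ((m + 1 : ℕ) : ℝ) = (1 / (m + 1 : ℝ)) * n := by push_cast; ring
    rw [h6] at h4
    have h7 : (2 / (m + 1 : ℝ)) * n = (1 / (2 * (m + 1 : ℝ))) * n + (1 / (m + 1 : ℝ)) * n
        + (1 / (2 * (m + 1 : ℝ))) * n := by field_simp; norm_num
    have h8 : (1 / (4 * (m + 1 : ℝ))) * n ≤ (1 / (2 * (m + 1 : ℝ))) * n := by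
      apply mul_le_mul_of_nonneg_right _ hn'.le
      apply one_div_le_one_div_of_le (by positivity)
      linarith
    linarith
  have hclim : Tendsto (fun m : ℕ => 2 / (m + 1 : ℝ)) atTop (𝓝 0) :=
    (tendsto_const_nhds).div_atTop
      (tendsto_atTop_add_const_right _ _ tendsto_natCast_atTop_atTop)
  obtain ⟨M, hMmono, hMtop, hMsq, hMlim⟩ := exists_diag (by linarith : (0 : ℝ) ≤ DY + 1) hb0 hbD
    (fun m => by positivity) hclim hb
  choose σ hσ using hs
  set x : ℕ → X := fun i => f^[i % (M i + 1)] (σ (y (i - i % (M i + 1)))) with hx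
  have hπit : ∀ (t : ℕ) (a : X), π (f^[t] a) = g^[t] (π a) := by
    intro t a
    induction t with
    | zero => rfl
    | succ t ih => rw [Function.iterate_succ_apply', Function.iterate_succ_apply', hc, ih]
  have hπx : ∀ i, π (x i) = g^[i % (M i + 1)] (y (i - i % (M i + 1))) := fun i => by
    rw [hx]; simp only [hπit, hσ]
  have hjump : ∀ j, dist (f (x j)) (x (j + 1)) ≤ DX * (b (M j) j + ((M (j + 1) : ℝ) - M j)) := by
    intro j
    have hM' : M j ≤ M (j + 1) := hMmono (Nat.le_succ j)
    have hbge : (if (M j + 1) ∣ j + 1 then (1 : ℝ) else 0) ≤ b (M j) j := by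
      simp only [hbdef]
      linarith [dist_nonneg (x := g^[j % (M j + 1)] (y (j - j % (M j + 1)))) (y := y j)]
    have hMr : (M j : ℝ) ≤ M (j + 1) := by exact_mod_cast hM'
    by_cases h : (M j + 1) ∣ j + 1
    · rw [if_pos h] at hbge
      have : 1 ≤ b (M j) j + ((M (j + 1) : ℝ) - M j) := by linarith
      calc _ ≤ DX := hDX _ _
        _ ≤ _ := le_mul_of_one_le_right hDX0 this
    · by_cases hM2 : M (j + 1) = M j
      · have e1 : (j + 1) % (M j + 1) = j % (M j + 1) + 1 := by
          have h5 : (j + 1) / (M j + 1) = j / (M j + 1) := by rw [Nat.succ_div, if_neg h, add_zero]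
          have h6 := Nat.div_add_mod j (M j + 1)
          have h7 := Nat.div_add_mod (j + 1) (M j + 1)
          rw [h5] at h7
          omega
        have e2 : j + 1 - (j + 1) % (M j + 1) = j - j % (M j + 1) := by rw [e1]; omega
        have e3 : f (x j) = x (j + 1) := by
          rw [hx]; simp only
          rw [hM2, e2, e1, Function.iterate_succ_apply']
        rw [e3, dist_self]
        have := hb0 (M j) j
        apply mul_nonneg hDX0
        linarith
      · have h3 : M j + 1 ≤ M (j + 1) := by omega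
        have h4 : (M j : ℝ) + 1 ≤ M (j + 1) := by exact_mod_cast h3
        have := hb0 (M j) j
        have : 1 ≤ b (M j) j + ((M (j + 1) : ℝ) - M j) := by linarith
        calc _ ≤ DX := hDX _ _
          _ ≤ _ := le_mul_of_one_le_right hDX0 this
  have hMn : Tendsto (fun n : ℕ => (M n : ℝ) / n) atTop (𝓝 0) := by
    have h1 : Tendsto (fun n : ℕ => 1 / (M n : ℝ)) atTop (𝓝 0) :=
      (tendsto_const_nhds).div_atTop (tendsto_natCast_atTop_atTop.comp hMtop)
    refine squeeze_zero' (Eventually.of_forall fun n => by positivity) ?_ h1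
    filter_upwards [hMtop.eventually_gt_atTop 0, eventually_gt_atTop 0] with n hn hn0
    have hn' : (0 : ℝ) < n := by exact_mod_cast hn0
    have hMn' : (0 : ℝ) < M n := by exact_mod_cast hn
    rw [div_le_div_iff₀ hn' hMn', one_mul]
    exact_mod_cast hMsq n
  have hxpo : IsAsymptoticAveragePseudoOrbit f x := by
    have hlim : Tendsto (fun n : ℕ => DX * ((∑ i ∈ range n, b (M i) i) / (n : ℝ)
        + (M n : ℝ) / n)) atTop (𝓝 0) := by
      simpa using (hMlim.add hMn).const_mul DX
    refine squeeze_zero (fun n => div_nonneg (sum_nonneg fun _ _ => dist_nonneg)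
      (Nat.cast_nonneg _)) (fun n => ?_) hlim
    rcases Nat.eq_zero_or_pos n with h | h
    · subst h; simp
    · have hn' : (0 : ℝ) < n := by exact_mod_cast h
      rw [div_le_iff₀ hn']
      calc ∑ i ∈ range n, dist (f (x i)) (x (i + 1))
          ≤ ∑ i ∈ range n, DX * (b (M i) i + ((M (i + 1) : ℝ) - M i)) :=
            sum_le_sum fun i _ => hjump i
        _ = DX * (∑ i ∈ range n, b (M i) i + ((M n : ℝ) - M 0)) := by
            rw [← mul_sum, sum_add_distrib, sum_range_sub (fun i => (M i : ℝ))]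
        _ ≤ DX * (∑ i ∈ range n, b (M i) i + M n) := by
            apply mul_le_mul_of_nonneg_left _ hDX0
            have : (0 : ℝ) ≤ M 0 := Nat.cast_nonneg _
            linarith
        _ = _ := by field_simp
  obtain ⟨z, hz⟩ := hA x hxpo
  refine ⟨π z, ?_⟩
  unfold AsymptoticallyShadowed at hz ⊢
  rw [Metric.tendsto_atTop]
  intro ε hε
  obtain ⟨C₁, hC₁, h1⟩ := exists_lin hπ (η := ε / 4) (by positivity)
  have hpos : (0 : ℝ) < ε / (4 * (C₁ + 1)) := by positivity
  have hev := (hz.eventually (gt_mem_nhds hpos)).and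
    ((hMlim.eventually (gt_mem_nhds (show (0 : ℝ) < ε / 4 by positivity))).and
      (eventually_gt_atTop 0))
  obtain ⟨n₀, hn₀⟩ := eventually_atTop.1 hev
  refine ⟨n₀, fun n hn => ?_⟩
  obtain ⟨hn1, hn2, hn3⟩ := hn₀ n hn
  have hn' : (0 : ℝ) < n := by exact_mod_cast hn3
  rw [Real.dist_eq, sub_zero, abs_of_nonneg
    (div_nonneg (sum_nonneg fun _ _ => dist_nonneg) (Nat.cast_nonneg _)), div_lt_iff₀ hn']
  rw [div_lt_iff₀ hn'] at hn1 hn2
  have hpt : ∀ i ∈ range n, dist (g^[i] (π z)) (y i) ≤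
      (ε / 4 + C₁ * dist (f^[i] z) (x i)) + b (M i) i := by
    intro i _
    have h3 := h1 (f^[i] z) (x i)
    rw [hπit] at h3
    have h4 : dist (π (x i)) (y i) ≤ b (M i) i := by
      rw [hπx i]
      simp only [hbdef]
      have : (0 : ℝ) ≤ if (M i + 1) ∣ i + 1 then (1 : ℝ) else 0 := by split_ifs <;> norm_num
      linarith
    exact (dist_triangle _ (π (x i)) _).trans (add_le_add h3 h4)
  refine (sum_le_sum hpt).trans_lt ?_
  rw [sum_add_distrib, sum_add_distrib, ← mul_sum, sum_const, card_range, nsmul_eq_mul]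
  have h6 : C₁ * ∑ i ∈ range n, dist (f^[i] z) (x i) ≤ ε / 4 * n := by
    calc C₁ * ∑ i ∈ range n, dist (f^[i] z) (x i) ≤ C₁ * (ε / (4 * (C₁ + 1)) * n) :=
          mul_le_mul_of_nonneg_left hn1.le hC₁
      _ = (C₁ * (ε / (4 * (C₁ + 1)))) * n := by ring
      _ ≤ ε / 4 * n := by
          apply mul_le_mul_of_nonneg_right _ hn'.le
          rw [mul_div_assoc', div_le_div_iff₀ (by positivity) (by norm_num)]
          nlinarith
  nlinarith

end Pool.Agent.X84.AvgShadow
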