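import Mathlib

set_option autoImplicit false
open Set Filter Topology MeasureTheory Finset

namespace Pool.Agent.X84.EmpLim

set_option linter.unusedSectionVars false
set_option linter.unusedVariables false

variable {X : Type*} [MetricSpace X] [CompactSpace X] [MeasurableSpace X] [BorelSpace X]

/-- empirical measure of the orbit piece `T^a x, …, T^{a+l-1} x` -/
noncomputable def emp (T : X → X) (x : X) (a l : ℕ) : Measure X :=
  ((l : ENNReal)⁻¹) • ∑ i ∈ range l, Measure.dirac (T^[a + i] x)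

lemma emp_prob (T : X → X) (x : X) (a : ℕ) {l : ℕ} (hl : 0 < l) :
    IsProbabilityMeasure (emp T x a l) := by
  refine ⟨?_⟩
  unfold emp
  rw [Measure.smul_apply, Measure.finsetSum_apply]
  simp only [measure_univ, Finset.sum_const, card_range, nsmul_eq_mul, mul_one, smul_eq_mul]
  exact ENNReal.inv_mul_cancel (by exact_mod_cast hl.ne') (ENNReal.natCast_ne_top l)

lemma integral_emp (T : X → X) (x : X) (a l : ℕ) {g : X → ℝ} (hg : Continuous g) :
    ∫ y, g y ∂(emp T x a l) = (∑ i ∈ range l, g (T^[a + i] x)) / l := by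
  unfold emp
  rw [integral_smul_measure, integral_finsetSum_measure]
  · simp only [integral_dirac, ENNReal.toReal_inv, ENNReal.toReal_natCast, smul_eq_mul]
    rw [div_eq_inv_mul]
  · intro i _
    exact integrable_dirac (by simp)

/-- a weak limit of empirical measures over longer and longer windows is invariant -/
theorem exists_limit {T : X → X} (hT : Continuous T) (x : X) (a l : ℕ → ℕ)
    (hl : Tendsto l atTop atTop) (hl0 : ∀ k, 0 < l k) :
    ∃ (U : Ultrafilter ℕ) (ρ : Measure X), (U : Filter ℕ) ≤ atTop ∧ IsProbabilityMeasure ρ ∧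
      MeasurePreserving T ρ ρ ∧ ∀ g : X → ℝ, Continuous g →
        Tendsto (fun k => (∑ i ∈ range (l k), g (T^[a k + i] x)) / (l k : ℝ)) U
          (𝓝 (∫ y, g y ∂ρ)) := by
  set m : ℕ → ProbabilityMeasure X := fun k => ⟨emp T x (a k) (l k), emp_prob T x (a k) (hl0 k)⟩
    with hm
  let U : Ultrafilter ℕ := Ultrafilter.of atTop
  have hU : (U : Filter ℕ) ≤ atTop := Ultrafilter.of_le atTop
  let ρ : ProbabilityMeasure X := (U.map m).lim
  have hρ : Tendsto m U (𝓝 ρ) := (U.map m).le_nhds_lim
  have hρf := ProbabilityMeasure.tendsto_iff_forall_integral_tendsto.1 hρ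
  have hlim : ∀ g : X → ℝ, Continuous g →
        Tendsto (fun k => (∑ i ∈ range (l k), g (T^[a k + i] x)) / (l k : ℝ)) U
          (𝓝 (∫ y, g y ∂(ρ : Measure X))) := by
    intro g hg
    have h1 := hρf (BoundedContinuousFunction.mkOfCompact ⟨g, hg⟩)
    refine h1.congr fun k => ?_
    exact integral_emp T x (a k) (l k) hg
  refine ⟨U, ρ, hU, inferInstance, ⟨hT.measurable, ?_⟩, hlim⟩
  have : IsProbabilityMeasure ((ρ : Measure X).map T) :=
    Measure.isProbabilityMeasure_map hT.measurable.aemeasurable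
  refine ext_of_forall_integral_eq_of_IsFiniteMeasure fun f => ?_
  rw [integral_map hT.measurable.aemeasurable f.continuous.aestronglyMeasurable]
  have h1 := hlim (fun y => f (T y)) (f.continuous.comp hT)
  have h2 := hlim f f.continuous
  have h3 : Tendsto (fun k => (∑ i ∈ range (l k), f (T (T^[a k + i] x))) / (l k : ℝ)
      - (∑ i ∈ range (l k), f (T^[a k + i] x)) / (l k : ℝ)) U (𝓝 0) := by
    have h4 : Tendsto (fun k => 2 * ‖f‖ * (1 / (l k : ℝ))) U (𝓝 (2 * ‖f‖ * 0)) := by
      refine Tendsto.const_mul _ ?_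
      refine Tendsto.mono_left ?_ hU
      exact tendsto_one_div_atTop_nhds_zero_nat.comp hl
    rw [mul_zero] at h4
    refine squeeze_zero_norm (fun k => ?_) h4
    have e1 : ∀ i, f (T (T^[a k + i] x)) = f (T^[a k + (i + 1)] x) := by
      intro i
      rw [← add_assoc, Function.iterate_succ_apply']
    have e2 : ∑ i ∈ range (l k), f (T (T^[a k + i] x)) - ∑ i ∈ range (l k), f (T^[a k + i] x)
        = f (T^[a k + l k] x) - f (T^[a k] x) := by
      simp only [e1]
      rw [← Finset.sum_sub_distrib, Finset.sum_range_sub (fun i => f (T^[a k + i] x))]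
      simp
    rw [← sub_div, e2, norm_div]
    have h5 : ‖f (T^[a k + l k] x) - f (T^[a k] x)‖ ≤ 2 * ‖f‖ := by
      refine (norm_sub_le _ _).trans ?_
      have := f.norm_coe_le_norm (T^[a k + l k] x)
      have := f.norm_coe_le_norm (T^[a k] x)
      linarith
    have h6 : ‖((l k : ℕ) : ℝ)‖ = l k := by rw [Real.norm_eq_abs, Nat.abs_cast]
    rw [h6, div_eq_mul_one_div]
    exact mul_le_mul_of_nonneg_right h5 (by positivity)
  have h5 := tendsto_nhds_unique h3 (h1.sub h2)
  linarith

/-- uniform convergence of averages along the orbit of `x` for uniquely ergodic systems -/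
theorem uniform_avg {T : X → X} (hT : Continuous T) (μ : Measure X)
    (huniq : ∀ ν : Measure X, IsProbabilityMeasure ν → MeasurePreserving T ν ν → ν = μ) (x : X)
    {g : X → ℝ} (hg : Continuous g) {ε : ℝ} (hε : 0 < ε) :
    ∃ L : ℕ, 0 < L ∧ ∀ l ≥ L, ∀ a : ℕ,
      |(∑ i ∈ range l, g (T^[a + i] x)) / (l : ℝ) - ∫ y, g y ∂μ| < ε := by
  by_contra hcon
  push Not at hcon
  have h1 : ∀ L : ℕ, ∃ l a : ℕ, L + 1 ≤ l ∧
      ε ≤ |(∑ i ∈ range l, g (T^[a + i] x)) / (l : ℝ) - ∫ y, g y ∂μ| := by
    intro L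
    obtain ⟨l, hl, a, ha⟩ := hcon (L + 1) (Nat.succ_pos L)
    exact ⟨l, a, hl, ha⟩
  choose l a hl ha using h1
  have hl0 : ∀ k, 0 < l k := fun k => lt_of_lt_of_le (Nat.succ_pos k) (hl k)
  have hltop : Tendsto l atTop atTop :=
    tendsto_atTop_mono (fun k => (Nat.le_succ k).trans (hl k)) tendsto_id
  obtain ⟨U, ρ, hU, hρ, hinv, hlim⟩ := exists_limit hT x a l hltop hl0
  have hρμ := huniq ρ hρ hinv
  subst hρμ
  have h2 := (hlim g hg).sub_const (∫ y, g y ∂ρ)
  rw [sub_self] at h2
  have h3 := h2.abs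
  rw [abs_zero] at h3
  obtain ⟨k, hk⟩ := (h3.eventually (gt_mem_nhds hε)).exists
  exact absurd (ha k) (not_le.2 hk)

open scoped Classical in
/-- open sets visited with frequency tending to zero along long windows are null -/
theorem null_of_windows {T : X → X} (hT : Continuous T) (μ : Measure X) [IsProbabilityMeasure μ]
    (huniq : ∀ ν : Measure X, IsProbabilityMeasure ν → MeasurePreserving T ν ν → ν = μ) (x : X)
    {V : Set X} (hV : IsOpen V)
    (h : ∀ ε : ℝ, 0 < ε → ∀ L : ℕ, ∃ l ≥ L, ∃ a : ℕ,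
      (((range l).filter (fun i => T^[a + i] x ∈ V)).card : ℝ) ≤ ε * l) : μ V = 0 := by
  by_cases hne : (Vᶜ).Nonempty
  swap
  · exfalso
    rw [Set.not_nonempty_iff_eq_empty, Set.compl_empty_iff] at hne
    obtain ⟨l, hl, a, ha⟩ := h (1 / 2) (by norm_num) 1
    rw [hne] at ha
    simp only [Set.mem_univ, Finset.filter_true, card_range] at ha
    have : (1 : ℝ) ≤ l := by exact_mod_cast hl
    linarith
  set g : X → ℝ := fun y => Metric.infDist y Vᶜ with hgdef
  have hg : Continuous g := Metric.continuous_infDist_pt _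
  obtain ⟨D, hD⟩ : ∃ D : ℝ, ∀ y, g y ≤ D := by
    obtain ⟨y₀, hy₀⟩ := isCompact_univ.exists_isMaxOn ⟨x, Set.mem_univ x⟩ hg.continuousOn
    exact ⟨g y₀, fun y => hy₀.2 (Set.mem_univ y)⟩
  have hg0 : ∀ y, 0 ≤ g y := fun y => Metric.infDist_nonneg
  have hD0 : 0 ≤ D := (hg0 x).trans (hD x)
  have hzero : ∫ y, g y ∂μ = 0 := by
    apply le_antisymm _ (integral_nonneg hg0)
    apply le_of_forall_pos_le_add
    intro ε hε
    obtain ⟨L, hL0, hL⟩ := uniform_avg hT μ huniq x hg (ε := ε / 2) (by positivity)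
    obtain ⟨l, hl, a, ha⟩ := h (ε / (2 * (D + 1))) (by positivity) L
    have h1 := hL l hl a
    have hl0 : (0 : ℝ) < l := by exact_mod_cast lt_of_lt_of_le hL0 hl
    have h2 : ∑ i ∈ range l, g (T^[a + i] x) ≤ D * (((range l).filter (fun i => T^[a + i] x ∈ V)).card : ℝ) := by
      have h3 : ∀ i ∈ range l, g (T^[a + i] x) ≤ if T^[a + i] x ∈ V then D else 0 := by
        intro i _
        split_ifs with hi
        · exact hD _
        · have : T^[a + i] x ∈ Vᶜ := hi
          rw [hgdef]
          simp only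
          rw [Metric.infDist_zero_of_mem this]
      refine (Finset.sum_le_sum h3).trans ?_
      rw [← Finset.sum_filter, Finset.sum_const, nsmul_eq_mul, mul_comm]
    have h3 : (∑ i ∈ range l, g (T^[a + i] x)) / (l : ℝ) ≤ ε / 2 := by
      rw [div_le_iff₀ hl0]
      calc _ ≤ D * (ε / (2 * (D + 1)) * l) := h2.trans (mul_le_mul_of_nonneg_left ha hD0)
        _ = (D / (D + 1)) * (ε / 2 * l) := by field_simp
        _ ≤ 1 * (ε / 2 * l) := by
            apply mul_le_mul_of_nonneg_right _ (by positivity)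
            rw [div_le_one (by positivity)]; linarith
        _ = ε / 2 * l := one_mul _
    rw [abs_lt] at h1
    linarith [h1.1]
  have hint : Integrable g μ := by
    have h1 : IntegrableOn g Set.univ μ := hg.continuousOn.integrableOn_compact isCompact_univ
    rwa [integrableOn_univ] at h1
  have h1 : g =ᵐ[μ] 0 := (integral_eq_zero_iff_of_nonneg hg0 hint).1 hzero
  have h2 : ∀ᵐ y ∂μ, y ∉ V := by
    filter_upwards [h1] with y hy hyV
    have h3 : y ∈ Vᶜ := by
      rw [← (hV.isClosed_compl).closure_eq, Metric.mem_closure_iff_infDist_zero hne]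
      exact hy
    exact h3 hyV
  rw [ae_iff] at h2
  simpa using h2

end Pool.Agent.X84.EmpLim
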