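import Mathlib

set_option autoImplicit false
open Real Set Filter Topology MeasureTheory

namespace Pool.Agent.X84.HetCycle

/-! ### trigonometric inequalities -/

lemma sin_tangent {x y : ℝ} (hx : x ∈ Icc 0 π) (hy : y ∈ Icc 0 π) :
    sin y ≤ sin x + cos x * (y - x) := by
  rcases lt_trichotomy x y with h | h | h
  · obtain ⟨ξ, hξ, he⟩ := exists_deriv_eq_slope sin h continuous_sin.continuousOn
      differentiable_sin.differentiableOn
    rw [Real.deriv_sin] at he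
    have h1 : cos ξ ≤ cos x := cos_le_cos_of_nonneg_of_le_pi hx.1 (hξ.2.le.trans hy.2) hξ.1.le
    rw [eq_div_iff (by linarith)] at he
    nlinarith
  · subst h; simp
  · obtain ⟨ξ, hξ, he⟩ := exists_deriv_eq_slope sin h continuous_sin.continuousOn
      differentiable_sin.differentiableOn
    rw [Real.deriv_sin] at he
    have h1 : cos x ≤ cos ξ := cos_le_cos_of_nonneg_of_le_pi (hy.1.trans hξ.1.le) hx.2 hξ.2.le
    rw [eq_div_iff (by linarith)] at he
    nlinarith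

lemma sin_le_pi_sub {x : ℝ} (hx : x ∈ Icc 0 π) : sin x ≤ π - x := by
  rw [← sin_pi_sub]; exact sin_le (by linarith [hx.2])

lemma step_mem {x t : ℝ} (hx : x ∈ Icc 0 π) (ht : |t| ≤ 1) : x + t * sin x ∈ Icc 0 π := by
  have h1 := sin_nonneg_of_mem_Icc hx
  have h2 := sin_le hx.1
  have h3 := sin_le_pi_sub hx
  rw [abs_le] at ht
  constructor <;> nlinarith [ht.1, ht.2]

/-- reduction to `[0, π]` -/
lemma exists_reduction (x : ℝ) : ∃ (w σ : ℝ), w ∈ Icc 0 π ∧ (σ = 1 ∨ σ = -1) ∧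
    ∀ h : ℝ, sin (x + h) = σ * sin (w + h) ∧ cos (x + h) = σ * cos (w + h) := by
  refine ⟨x - ⌊x / π⌋ * π, (-1) ^ ⌊x / π⌋, ⟨?_, ?_⟩, ?_, ?_⟩
  · have := Int.floor_le (x / π)
    rw [le_div_iff₀ pi_pos] at this
    linarith
  · have := (Int.lt_floor_add_one (x / π)).le
    rw [div_le_iff₀ pi_pos] at this
    linarith
  · rcases Int.even_or_odd ⌊x / π⌋ with h | h
    · left; exact h.neg_one_zpow
    · right; exact h.neg_one_zpow
  · intro h
    have e1 : x + h = (x - ⌊x / π⌋ * π + h) + ⌊x / π⌋ * π := by ring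
    constructor
    · rw [e1, sin_add_int_mul_pi]
    · rw [e1, cos_add_int_mul_pi]

lemma abs_sin_step (x : ℝ) {t : ℝ} (ht : |t| < 1) :
    |sin (x + t * sin x)| ≤ |sin x| * (1 + t * cos x) := by
  obtain ⟨w, σ, hw, hσ, hr⟩ := exists_reduction x
  have h0 := hr 0
  simp only [add_zero] at h0
  obtain ⟨hs, hc⟩ := h0
  have h1 := (hr (t * sin x)).1
  have hσt : |t * σ| ≤ 1 := by
    rcases hσ with h | h <;> simp [h, ht.le]
  have hmem := step_mem hw hσt
  have e1 : t * sin x = t * σ * sin w := by rw [hs]; ring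
  rw [h1, e1, abs_mul]
  have hσ1 : |σ| = 1 := by rcases hσ with h | h <;> simp [h]
  rw [hσ1, one_mul, abs_of_nonneg (sin_nonneg_of_mem_Icc hmem), hs, abs_mul, hσ1, one_mul,
    abs_of_nonneg (sin_nonneg_of_mem_Icc hw), hc]
  have h2 := sin_tangent hw hmem
  have e2 : sin w + cos w * (w + t * σ * sin w - w) = sin w * (1 + t * (σ * cos w)) := by ring
  linarith

lemma sin_step_ne_zero {x t : ℝ} (ht : |t| < 1) (hx : sin x ≠ 0) : sin (x + t * sin x) ≠ 0 := by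
  obtain ⟨w, σ, hw, hσ, hr⟩ := exists_reduction x
  have h0 := (hr 0).1
  simp only [add_zero] at h0
  have h1 := (hr (t * sin x)).1
  have hσt : |t * σ| < 1 := by
    rcases hσ with h | h <;> simp [h, ht]
  have e1 : t * sin x = t * σ * sin w := by rw [h0]; ring
  have hσ0 : σ ≠ 0 := by rcases hσ with h | h <;> simp [h]
  have hsw : sin w ≠ 0 := fun h => hx (by rw [h0, h, mul_zero])
  have hsw' : 0 < sin w := lt_of_le_of_ne (sin_nonneg_of_mem_Icc hw) hsw.symm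
  rw [h1, e1]
  apply mul_ne_zero hσ0
  apply ne_of_gt
  rw [abs_lt] at hσt
  have h2 := sin_le hw.1
  have h3 := sin_le_pi_sub hw
  apply sin_pos_of_pos_of_lt_pi <;> nlinarith [hσt.1, hσt.2]

lemma cos_step_Icc {w t : ℝ} (hw : w ∈ Icc 0 π) (ht : |t| ≤ 1) :
    t * (cos (w + t * sin w) - cos w) ≤ 0 ∧
      (t ≠ 0 → sin w ≠ 0 → t * (cos (w + t * sin w) - cos w) < 0) := by
  have hmem := step_mem hw ht
  have hs := sin_nonneg_of_mem_Icc hw
  constructor
  · rcases le_total 0 t with h | h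
    · have h1 : cos (w + t * sin w) ≤ cos w :=
        cos_le_cos_of_nonneg_of_le_pi hw.1 hmem.2 (by nlinarith)
      nlinarith
    · have h1 : cos w ≤ cos (w + t * sin w) :=
        cos_le_cos_of_nonneg_of_le_pi hmem.1 hw.2 (by nlinarith)
      nlinarith
  · intro h0 h1
    have hs' : 0 < sin w := lt_of_le_of_ne hs h1.symm
    rcases lt_or_gt_of_ne h0 with h | h
    · have h2 : cos w < cos (w + t * sin w) :=
        cos_lt_cos_of_nonneg_of_le_pi hmem.1 hw.2 (by nlinarith)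
      nlinarith
    · have h2 : cos (w + t * sin w) < cos w :=
        cos_lt_cos_of_nonneg_of_le_pi hw.1 hmem.2 (by nlinarith)
      nlinarith

lemma cos_step (x : ℝ) {t : ℝ} (ht : |t| ≤ 1) :
    t * (cos (x + t * sin x) - cos x) ≤ 0 ∧
      (t ≠ 0 → sin x ≠ 0 → t * (cos (x + t * sin x) - cos x) < 0) := by
  obtain ⟨w, σ, hw, hσ, hr⟩ := exists_reduction x
  have h0 := hr 0
  simp only [add_zero] at h0
  have h1 := (hr (t * sin x)).2
  have hσt : |t * σ| ≤ 1 := by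
    rcases hσ with h | h <;> simp [h, ht]
  have e1 : t * sin x = t * σ * sin w := by rw [h0.1]; ring
  have hσ0 : σ ≠ 0 := by rcases hσ with h | h <;> simp [h]
  have e2 : t * (cos (x + t * sin x) - cos x) = (t * σ) * (cos (w + t * σ * sin w) - cos w) := by
    rw [h1, e1, h0.2]; ring
  rw [e2]
  obtain ⟨h2, h3⟩ := cos_step_Icc hw hσt
  refine ⟨h2, fun ht0 hx => h3 (mul_ne_zero ht0 hσ0) (fun h => hx (by rw [h0.1, h, mul_zero]))⟩

/-! ### the map on the plane -/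

/-- the drift in the first coordinate -/
noncomputable def t₁ (x y : ℝ) : ℝ := (2 * cos y - cos x) / 8

/-- the drift in the second coordinate -/
noncomputable def t₂ (x y : ℝ) : ℝ := -(2 * cos x + cos y) / 8

/-- the map `F(x,y) = (x + sin x (2 cos y - cos x)/8, y - sin y (2 cos x + cos y)/8)` -/
noncomputable def F (z : ℝ × ℝ) : ℝ × ℝ :=
  (z.1 + t₁ z.1 z.2 * sin z.1, z.2 + t₂ z.1 z.2 * sin z.2)

lemma t₁_abs (x y : ℝ) : |t₁ x y| ≤ 3 / 8 := by
  unfold t₁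
  rw [abs_le]
  have h1 := cos_le_one x; have h2 := neg_one_le_cos x
  have h3 := cos_le_one y; have h4 := neg_one_le_cos y
  constructor <;> linarith

lemma t₂_abs (x y : ℝ) : |t₂ x y| ≤ 3 / 8 := by
  unfold t₂
  rw [abs_le]
  have h1 := cos_le_one x; have h2 := neg_one_le_cos x
  have h3 := cos_le_one y; have h4 := neg_one_le_cos y
  constructor <;> linarith

lemma abs_sin_sub_sin (a b : ℝ) : |sin a - sin b| ≤ |a - b| := by
  rw [sin_sub_sin, abs_mul, abs_mul]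
  have h6 : |sin ((a - b) / 2)| ≤ |(a - b) / 2| := abs_sin_le_abs
  have h7 := abs_cos_le_one ((a + b) / 2)
  have h8 : |(a - b) / 2| = |a - b| / 2 := by rw [abs_div]; norm_num
  rw [h8] at h6
  have h9 : |(2 : ℝ)| = 2 := by norm_num
  rw [h9]
  have h10 := mul_le_mul h6 h7 (abs_nonneg _) (by positivity)
  nlinarith

lemma abs_cos_sub_cos (a b : ℝ) : |cos a - cos b| ≤ |a - b| := by
  have := abs_sin_sub_sin (π / 2 - a) (π / 2 - b)
  rw [sin_pi_div_two_sub, sin_pi_div_two_sub] at this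
  refine this.trans (le_of_eq ?_)
  rw [abs_sub_comm a b]; congr 1; ring

lemma abs_sin_mul_cos (a b c d : ℝ) :
    |sin a * cos b - sin c * cos d| ≤ |a - c| + |b - d| := by
  have e : sin a * cos b - sin c * cos d = (sin a - sin c) * cos b + sin c * (cos b - cos d) := by
    ring
  rw [e]
  refine (abs_add_le _ _).trans ?_
  rw [abs_mul, abs_mul]
  have h1 := abs_sin_sub_sin a c
  have h2 := abs_cos_sub_cos b d
  have h3 := abs_cos_le_one b
  have h4 := abs_sin_le_one c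
  have h5 := mul_le_mul h1 h3 (abs_nonneg _) (abs_nonneg _)
  have h6 := mul_le_mul h4 h2 (abs_nonneg _) zero_le_one
  linarith

/-- the perturbation `F - id` -/
noncomputable def pert (z : ℝ × ℝ) : ℝ × ℝ := (t₁ z.1 z.2 * sin z.1, t₂ z.1 z.2 * sin z.2)

lemma F_eq (z : ℝ × ℝ) : F z = z + pert z := rfl

lemma pert_lip (z w : ℝ × ℝ) : ‖pert z - pert w‖ ≤ 5 / 8 * ‖z - w‖ := by
  have h1 : |z.1 - w.1| ≤ ‖z - w‖ := norm_fst_le (z - w)
  have h2 : |z.2 - w.2| ≤ ‖z - w‖ := norm_snd_le (z - w)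
  rw [norm_prod_le_iff]
  constructor
  · have e : (pert z - pert w).1 = 1 / 4 * (sin z.1 * cos z.2 - sin w.1 * cos w.2)
        - 1 / 16 * (sin (2 * z.1) - sin (2 * w.1)) := by
      simp only [pert, t₁, Prod.fst_sub, sin_two_mul]; ring
    rw [Real.norm_eq_abs, e]
    refine (abs_sub _ _).trans ?_
    rw [abs_mul, abs_mul]
    have h3 := abs_sin_mul_cos z.1 z.2 w.1 w.2
    have h4 := abs_sin_sub_sin (2 * z.1) (2 * w.1)
    have h5 : |2 * z.1 - 2 * w.1| = 2 * |z.1 - w.1| := by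
      rw [← mul_sub, abs_mul]; norm_num
    rw [h5] at h4
    have h6 : |(1 / 4 : ℝ)| = 1 / 4 := by norm_num
    have h7 : |(1 / 16 : ℝ)| = 1 / 16 := by norm_num
    rw [h6, h7]
    linarith
  · have e : (pert z - pert w).2 = -(1 / 4 * (sin z.2 * cos z.1 - sin w.2 * cos w.1))
        - 1 / 16 * (sin (2 * z.2) - sin (2 * w.2)) := by
      simp only [pert, t₂, Prod.snd_sub, sin_two_mul]; ring
    rw [Real.norm_eq_abs, e]
    refine (abs_sub _ _).trans ?_
    rw [abs_neg, abs_mul, abs_mul]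
    have h3 := abs_sin_mul_cos z.2 z.1 w.2 w.1
    have h4 := abs_sin_sub_sin (2 * z.2) (2 * w.2)
    have h5 : |2 * z.2 - 2 * w.2| = 2 * |z.2 - w.2| := by
      rw [← mul_sub, abs_mul]; norm_num
    rw [h5] at h4
    have h6 : |(1 / 4 : ℝ)| = 1 / 4 := by norm_num
    have h7 : |(1 / 16 : ℝ)| = 1 / 16 := by norm_num
    rw [h6, h7]
    linarith

lemma contDiff_cosR {n : WithTop ℕ∞} : ContDiff ℝ n Real.cos := Real.contDiff_cos
lemma contDiff_sinR {n : WithTop ℕ∞} : ContDiff ℝ n Real.sin := Real.contDiff_sin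

lemma pert_contDiff {n : WithTop ℕ∞} : ContDiff ℝ n pert := by
  have c1 : ContDiff ℝ n (fun z : ℝ × ℝ => cos z.1) := contDiff_cosR.comp contDiff_fst
  have c2 : ContDiff ℝ n (fun z : ℝ × ℝ => cos z.2) := contDiff_cosR.comp contDiff_snd
  have s1 : ContDiff ℝ n (fun z : ℝ × ℝ => sin z.1) := contDiff_sinR.comp contDiff_fst
  have s2 : ContDiff ℝ n (fun z : ℝ × ℝ => sin z.2) := contDiff_sinR.comp contDiff_snd
  unfold pert t₁ t₂
  exact ContDiff.prodMk ((((contDiff_const.mul c2).sub c1).div_const 8).mul s1)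
    (((((contDiff_const.mul c1).add c2).neg).div_const 8).mul s2)

lemma F_contDiff {n : WithTop ℕ∞} : ContDiff ℝ n F := by
  have : F = fun z => z + pert z := rfl
  rw [this]
  exact contDiff_id.add pert_contDiff

lemma pert_lipschitz : LipschitzWith (5 / 8) pert :=
  LipschitzWith.of_dist_le_mul fun z w => by
    rw [dist_eq_norm, dist_eq_norm]
    simpa using pert_lip z w

lemma F_approx : ApproximatesLinearOn F ((ContinuousLinearEquiv.refl ℝ (ℝ × ℝ) : (ℝ × ℝ) ≃L[ℝ] (ℝ × ℝ))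
    : (ℝ × ℝ) →L[ℝ] (ℝ × ℝ)) univ (5 / 8) := by
  intro z _ w _
  have e : F z - F w - ((ContinuousLinearEquiv.refl ℝ (ℝ × ℝ) : (ℝ × ℝ) ≃L[ℝ] (ℝ × ℝ))
      : (ℝ × ℝ) →L[ℝ] (ℝ × ℝ)) (z - w) = pert z - pert w := by
    rw [F_eq, F_eq]
    simp
    abel
  rw [e]
  simpa using pert_lip z w

/-- `F` as a homeomorphism of the plane -/
noncomputable def Fhomeo : (ℝ × ℝ) ≃ₜ (ℝ × ℝ) := F_approx.toHomeomorph F (by
  right
  have h1 : ‖((ContinuousLinearEquiv.refl ℝ (ℝ × ℝ)).symm : (ℝ × ℝ) →L[ℝ] (ℝ × ℝ))‖₊ = 1 := by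
    have : ((ContinuousLinearEquiv.refl ℝ (ℝ × ℝ)).symm : (ℝ × ℝ) →L[ℝ] (ℝ × ℝ))
      = ContinuousLinearMap.id ℝ (ℝ × ℝ) := rfl
    rw [this]
    exact ContinuousLinearMap.nnnorm_id
  rw [h1, inv_one]
  rw [div_lt_one (by norm_num)]
  norm_num)

lemma Fhomeo_apply (z : ℝ × ℝ) : Fhomeo z = F z := rfl

/-- the derivative -/
lemma F_hasFDerivAt (z : ℝ × ℝ) : HasFDerivAt F (ContinuousLinearMap.id ℝ (ℝ × ℝ) + fderiv ℝ pert z) z := by
  have h1 : HasFDerivAt pert (fderiv ℝ pert z) z :=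
    (pert_contDiff.differentiable (n := 1) one_ne_zero).differentiableAt.hasFDerivAt
  exact (hasFDerivAt_id z).add h1

lemma exists_equiv (z : ℝ × ℝ) : ∃ e : (ℝ × ℝ) ≃L[ℝ] (ℝ × ℝ),
    (e : (ℝ × ℝ) →L[ℝ] (ℝ × ℝ)) = ContinuousLinearMap.id ℝ (ℝ × ℝ) + fderiv ℝ pert z := by
  have hn : ‖fderiv ℝ pert z‖ ≤ ((5 / 8 : NNReal) : ℝ) := norm_fderiv_le_of_lipschitz ℝ pert_lipschitz
  have hn' : ‖-fderiv ℝ pert z‖ < 1 := by
    rw [norm_neg]
    refine hn.trans_lt ?_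
    norm_num
  have hu := isUnit_one_sub_of_norm_lt_one hn'
  obtain ⟨u, hu⟩ := hu
  refine ⟨ContinuousLinearEquiv.unitsEquiv ℝ (ℝ × ℝ) u, ?_⟩
  have : ((ContinuousLinearEquiv.unitsEquiv ℝ (ℝ × ℝ) u : (ℝ × ℝ) ≃L[ℝ] (ℝ × ℝ))
      : (ℝ × ℝ) →L[ℝ] (ℝ × ℝ)) = (u : (ℝ × ℝ) →L[ℝ] (ℝ × ℝ)) := rfl
  rw [this, hu, sub_neg_eq_add]
  rfl

lemma Fhomeo_symm_contDiff {n : WithTop ℕ∞} : ContDiff ℝ n Fhomeo.symm := by
  choose e he using exists_equiv
  apply Fhomeo.contDiff_symm (f₀' := e)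
  · intro a
    rw [he a]
    exact F_hasFDerivAt a
  · exact F_contDiff

end Pool.Agent.X84.HetCycle
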