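import Pool.Agent.X84.EmpLim

set_option autoImplicit false
open Set Filter Topology MeasureTheory Finset

namespace Pool.Agent.X84.Kill

/-- `S` is a weak interpolation set of order `k` for the class of uniquely ergodic systems: for
every `f : S → {0, …, k-1}` there are a compact metric space `X`, a continuous `T : X → X` with
exactly one invariant Borel probability measure, a point `x` with dense forward orbit and a
continuous `F : X → ℂ` with `F (Tⁿ x) = f n` for all `n ∈ S`. -/
def IsWeakInterpolationSet (k : ℕ) (S : Set ℕ) : Prop :=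
  ∀ f : S → Fin k, ∃ (X : Type) (_ : MetricSpace X) (_ : CompactSpace X) (_ : MeasurableSpace X)
    (_ : BorelSpace X) (T : X → X) (x : X) (F : X → ℂ), Continuous T ∧
    (∃! μ : Measure X, IsProbabilityMeasure μ ∧ MeasurePreserving T μ μ) ∧
    Dense (Set.range fun n : ℕ => T^[n] x) ∧ Continuous F ∧
    ∀ n : S, F (T^[(n : ℕ)] x) = ((f n : ℕ) : ℂ)

/-- the union bound -/
lemma exists_avoid {n k m : ℕ} (hk : 2 ≤ k) {ι : Type} [Fintype ι] (P : ι → Finset (Fin n))
    (v : ι → Fin n → Option (Fin k)) (hcard : Fintype.card ι < 2 ^ m) :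
    ∃ g : Fin n → Fin k, ∀ c, m ≤ (P c).card → ∃ i ∈ P c, v c i ≠ some (g i) := by
  classical
  by_contra hcon
  push Not at hcon
  set bad : ι → Finset (Fin n → Fin k) := fun c =>
    univ.filter fun g => m ≤ (P c).card ∧ ∀ i ∈ P c, v c i = some (g i) with hbad
  have hcover : (univ : Finset (Fin n → Fin k)) ⊆ univ.biUnion bad := by
    intro g _
    obtain ⟨c, hc1, hc2⟩ := hcon g
    rw [Finset.mem_biUnion]
    exact ⟨c, Finset.mem_univ _, Finset.mem_filter.2 ⟨Finset.mem_univ _, hc1, hc2⟩⟩
  have hk0 : 0 < k := by omega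
  have hbadcard : ∀ c, (bad c).card * 2 ^ m ≤ k ^ n := by
    intro c
    by_cases hm : m ≤ (P c).card
    · have hsub : bad c ⊆ Fintype.piFinset
          (fun i => if i ∈ P c then {(v c i).getD ⟨0, hk0⟩} else (univ : Finset (Fin k))) := by
        intro g hg
        rw [Finset.mem_filter] at hg
        rw [Fintype.mem_piFinset]
        intro i
        split_ifs with hi
        · rw [Finset.mem_singleton, hg.2.2 i hi]; rfl
        · exact Finset.mem_univ _
      have h1 := Finset.card_le_card hsub
      rw [Fintype.card_piFinset] at h1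
      have h2 : ∏ i, (if i ∈ P c then {(v c i).getD ⟨0, hk0⟩} else (univ : Finset (Fin k))).card
          = k ^ (n - (P c).card) := by
        have h3 : ∀ i, (if i ∈ P c then {(v c i).getD ⟨0, hk0⟩} else (univ : Finset (Fin k))).card
            = if i ∈ P c then 1 else k := by
          intro i; split_ifs <;> simp
        rw [Finset.prod_congr rfl (fun i _ => h3 i), Finset.prod_ite]
        simp only [Finset.prod_const_one, one_mul, Finset.prod_const]
        congr 1
        have : (univ.filter fun i => i ∉ P c) = (P c)ᶜ := by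
          ext i; simp
        rw [this, Finset.card_compl, Fintype.card_fin]
      rw [h2] at h1
      have hle : (P c).card ≤ n := by
        have := Finset.card_le_univ (P c)
        rwa [Fintype.card_fin] at this
      calc (bad c).card * 2 ^ m ≤ k ^ (n - (P c).card) * k ^ (P c).card := by
            apply Nat.mul_le_mul h1
            exact (Nat.pow_le_pow_left hk m).trans (Nat.pow_le_pow_right hk0 hm)
        _ = k ^ n := by rw [← pow_add, Nat.sub_add_cancel hle]
    · have : bad c = ∅ := by
        rw [hbad]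
        apply Finset.filter_eq_empty_iff.2
        intro g _ h
        exact hm h.1
      rw [this]; simp
  have h1 := Finset.card_le_card hcover
  rw [Finset.card_univ, Fintype.card_fun, Fintype.card_fin, Fintype.card_fin] at h1
  have h2 : k ^ n * 2 ^ m ≤ Fintype.card ι * k ^ n := by
    calc k ^ n * 2 ^ m ≤ (∑ c, (bad c).card) * 2 ^ m :=
          Nat.mul_le_mul_right _ (h1.trans Finset.card_biUnion_le)
      _ = ∑ c, (bad c).card * 2 ^ m := Finset.sum_mul _ _ _
      _ ≤ ∑ _c : ι, k ^ n := Finset.sum_le_sum fun c _ => hbadcard c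
      _ = Fintype.card ι * k ^ n := by simp
  have hkn : 0 < k ^ n := by positivity
  have h3 : Fintype.card ι * k ^ n < 2 ^ m * k ^ n := Nat.mul_lt_mul_of_pos_right hcard hkn
  rw [mul_comm (k ^ n)] at h2
  omega

/-- one condition of a cylinder: closeness to a symbol, or distance from all symbols -/
def Cond {k : ℕ} : Option (Fin k) → ℂ → Prop
  | none, z => ∀ j : Fin k, 1 / 4 < ‖z - ((j : ℕ) : ℂ)‖
  | some j, z => ‖z - ((j : ℕ) : ℂ)‖ < 1 / 2

lemma cond_cover (k : ℕ) (z : ℂ) : ∃ o : Option (Fin k), Cond o z := by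
  by_cases h : ∃ j : Fin k, ‖z - ((j : ℕ) : ℂ)‖ < 1 / 2
  · obtain ⟨j, hj⟩ := h
    exact ⟨some j, hj⟩
  · push Not at h
    refine ⟨none, fun j => ?_⟩
    have := h j
    linarith

lemma cond_open {k : ℕ} (o : Option (Fin k)) : IsOpen {z : ℂ | Cond o z} := by
  cases o with
  | none =>
    have : {z : ℂ | Cond (none : Option (Fin k)) z} = ⋂ j : Fin k, {z : ℂ | 1 / 4 < ‖z - ((j : ℕ) : ℂ)‖} := by
      ext z; simp [Cond]
    rw [this]
    exact isOpen_iInter_of_finite fun j => isOpen_lt continuous_const (by fun_prop)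
  | some j => exact isOpen_lt (by fun_prop) continuous_const

lemma cond_nat {k : ℕ} {o : Option (Fin k)} {i : Fin k} (h : Cond o ((i : ℕ) : ℂ)) : o = some i := by
  cases o with
  | none =>
    exfalso
    have := h i
    rw [sub_self, norm_zero] at this
    linarith
  | some j =>
    have h1 : ‖((i : ℕ) : ℂ) - ((j : ℕ) : ℂ)‖ < 1 / 2 := h
    have h2 : ((i : ℕ) : ℂ) - ((j : ℕ) : ℂ) = (((i : ℕ) : ℤ) - ((j : ℕ) : ℤ) : ℤ) := by push_cast; rfl
    rw [h2, Complex.norm_intCast] at h1
    have h3 : |(((i : ℕ) : ℤ) - ((j : ℕ) : ℤ))| < 1 := by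
      have : ((|(((i : ℕ) : ℤ) - ((j : ℕ) : ℤ))| : ℤ) : ℝ) < 1 := by
        push_cast at h1 ⊢; linarith
      exact_mod_cast this
    rw [Int.abs_lt_one_iff] at h3
    congr 1
    apply Fin.ext
    omega

open scoped Classical in
/-- number of elements of `S` in `[t, t+n)` -/
noncomputable def cnt (S : Set ℕ) (t n : ℕ) : ℕ := ((range n).filter fun i => t + i ∈ S).card

open scoped Classical in
/-- **Killing theorem.** If along long disjoint windows most windows of length `n` contain at least
`2m` points of `S`, with `2n < 2^m`, then `S` is not a weak interpolation set of order `k ≥ 2`. -/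
theorem kill {k n m : ℕ} (hk : 2 ≤ k) (hn : 0 < n) (hm : 2 * n < 2 ^ m) {S : Set ℕ}
    (α β : ℕ → ℕ) (hαβ : ∀ l, α l < β l) (hβα : ∀ l, β l ≤ α (l + 1))
    (hlen : Tendsto (fun l => β l - α l) atTop atTop)
    (hS : ∀ ε : ℝ, 0 < ε → ∀ᶠ l in atTop,
      (((range ((β l - α l) * n)).filter fun t => cnt S (α l * n + t) n < 2 * m).card : ℝ)
        ≤ ε * ((β l - α l : ℕ) * n : ℝ)) :
    ¬ IsWeakInterpolationSet k S := by
  intro hI
  have hβmono : StrictMono β := strictMono_nat_of_lt_succ fun l => (hβα l).trans_lt (hαβ (l + 1))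
  have hex : ∀ j : ℕ, ∃ l, j < β l := fun j =>
    ⟨j + 1, lt_of_lt_of_le (Nat.lt_succ_self j) (hβmono.id_le (j + 1))⟩
  set idx : ℕ → ℕ := fun j => Nat.find (hex j) with hidx
  have hidx_eq : ∀ l j, α l ≤ j → j < β l → idx j = l := by
    intro l j h1 h2
    apply le_antisymm (Nat.find_min' (hex j) h2)
    by_contra hcon
    push Not at hcon
    have hcon' : Nat.find (hex j) < l := hcon
    obtain ⟨l', rfl⟩ : ∃ l', l = l' + 1 := ⟨l - 1, by omega⟩
    have h3 : j < β (Nat.find (hex j)) := Nat.find_spec (hex j)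
    have h4 : β (Nat.find (hex j)) ≤ β l' := hβmono.monotone (by omega)
    have := hβα l'
    omega
  -- words
  set N := Fintype.card (Fin n → Option (Fin k)) with hN
  have hN0 : 0 < N := Fintype.card_pos
  set e := Fintype.equivFin (Fin n → Option (Fin k)) with he
  set w : ℕ → (Fin n → Option (Fin k)) := fun l => e.symm ⟨l % N, Nat.mod_lt l hN0⟩ with hw
  have hwinf : ∀ W : Fin n → Option (Fin k), ∀ l₀ : ℕ, ∃ l ≥ l₀, w l = W := by
    intro W l₀
    refine ⟨l₀ * N + (e W : ℕ), ?_, ?_⟩
    · have : l₀ ≤ l₀ * N := Nat.le_mul_of_pos_right l₀ hN0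
      omega
    · rw [hw]
      simp only
      have : (l₀ * N + (e W : ℕ)) % N = (e W : ℕ) := by
        rw [Nat.add_comm, Nat.add_mul_mod_self_right, Nat.mod_eq_of_lt (e W).2]
      rw [Equiv.symm_apply_eq]
      apply Fin.ext
      exact this
  -- killing functions
  have hG : ∀ j : ℕ, ∃ g : Fin n → Fin k,
      (∀ r : Fin n, m ≤ (univ.filter fun i : Fin n => r ≤ i ∧ j * n + i ∈ S).card →
        ∃ i : Fin n, r ≤ i ∧ j * n + i ∈ S ∧
          ∀ h : (i : ℕ) - r < n, w (idx j) ⟨(i : ℕ) - r, h⟩ ≠ some (g i)) ∧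
      (∀ r : Fin n, m ≤ (univ.filter fun i : Fin n => (i : ℕ) + r < n ∧ j * n + i ∈ S).card →
        ∃ i : Fin n, ∃ h : (i : ℕ) + r < n, j * n + i ∈ S ∧
          w (idx j) ⟨(i : ℕ) + r, h⟩ ≠ some (g i)) := by
    intro j
    have hcard : Fintype.card (Fin n ⊕ Fin n) < 2 ^ m := by
      rw [Fintype.card_sum, Fintype.card_fin]; omega
    obtain ⟨g, hg⟩ := exists_avoid (m := m) hk
      (P := Sum.elim (fun r : Fin n => univ.filter fun i : Fin n => r ≤ i ∧ j * n + i ∈ S)
        (fun r : Fin n => univ.filter fun i : Fin n => (i : ℕ) + r < n ∧ j * n + i ∈ S))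
      (v := Sum.elim
        (fun (r : Fin n) (i : Fin n) => w (idx j) ⟨(i : ℕ) - r, lt_of_le_of_lt (Nat.sub_le _ _) i.2⟩)
        (fun (r : Fin n) (i : Fin n) => if h : (i : ℕ) + r < n then w (idx j) ⟨(i : ℕ) + r, h⟩ else none))
      hcard
    refine ⟨g, fun r hr => ?_, fun r hr => ?_⟩
    · obtain ⟨i, hi, hv⟩ := hg (Sum.inl r) hr
      simp only [Sum.elim_inl, Finset.mem_filter, Finset.mem_univ, true_and] at hi hv
      exact ⟨i, hi.1, hi.2, fun h => hv⟩
    · obtain ⟨i, hi, hv⟩ := hg (Sum.inr r) hr
      simp only [Sum.elim_inr, Finset.mem_filter, Finset.mem_univ, true_and] at hi hv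
      rw [dif_pos hi.1] at hv
      exact ⟨i, hi.1, hi.2, hv⟩
  choose G hG1 hG2 using hG
  obtain ⟨X, _, _, _, _, T, x, F, hT, ⟨μ, ⟨hμ, hμT⟩, hμu⟩, _, hF, hFf⟩ :=
    hI (fun s => G ((s : ℕ) / n) ⟨(s : ℕ) % n, Nat.mod_lt _ hn⟩)
  have huniq : ∀ ν : Measure X, IsProbabilityMeasure ν → MeasurePreserving T ν ν → ν = μ :=
    fun ν h1 h2 => hμu ν ⟨h1, h2⟩
  set C : (Fin n → Option (Fin k)) → Set X := fun W => {y | ∀ i : Fin n, Cond (W i) (F (T^[(i : ℕ)] y))}
    with hC
  have hCopen : ∀ W, IsOpen (C W) := by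
    intro W
    have : C W = ⋂ i : Fin n, (fun y => F (T^[(i : ℕ)] y)) ⁻¹' {z | Cond (W i) z} := by
      ext y; simp [hC]
    rw [this]
    exact isOpen_iInter_of_finite fun i => (cond_open (W i)).preimage (hF.comp (hT.iterate i))
  have hCcover : (Set.univ : Set X) ⊆ ⋃ W ∈ (univ : Finset (Fin n → Option (Fin k))), C W := by
    intro y _
    choose o ho using fun i : Fin n => cond_cover k (F (T^[(i : ℕ)] y))
    rw [Set.mem_iUnion₂]
    exact ⟨o, Finset.mem_univ _, ho⟩
  -- key: no visits with many points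
  have hkey : ∀ (l t : ℕ), t + n ≤ (β l - α l) * n → T^[α l * n + t] x ∈ C (w l) →
      cnt S (α l * n + t) n < 2 * m := by
    intro l t ht hmem
    by_contra hcon
    push Not at hcon
    set u := α l * n + t with hu
    set j := u / n with hj
    set r := u % n with hr
    have hrn : r < n := Nat.mod_lt _ hn
    have hujr : u = j * n + r := by
      rw [hj, hr, Nat.mul_comm]; exact (Nat.div_add_mod u n).symm
    have hαj : α l ≤ j := by
      rw [hj, Nat.le_div_iff_mul_le hn]; omega
    have hun : u + n ≤ β l * n := by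
      have h1 : (β l - α l) * n = β l * n - α l * n := Nat.sub_mul _ _ _
      have h2 : α l * n ≤ β l * n := Nat.mul_le_mul_right n (hαβ l).le
      omega
    have hjβ : j < β l := by
      rw [hj, Nat.div_lt_iff_lt_mul hn]; omega
    have hidxj := hidx_eq l j hαj hjβ
    -- values of f on S
    have hval : ∀ i : Fin n, ∀ (j' : ℕ) (i' : Fin n), u + i = j' * n + i' → u + i ∈ S →
        w l i = some (G j' i') := by
      intro i j' i' h1 h2
      have h3 := hmem i
      rw [← Function.iterate_add_apply] at h3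
      have h4 := hFf ⟨u + i, h2⟩
      simp only at h4
      rw [Nat.add_comm (i : ℕ), h4] at h3
      have h5 := cond_nat h3
      rw [h5]
      congr 1
      have h6 : (u + (i : ℕ)) / n = j' := by
        rw [h1, Nat.mul_comm, Nat.mul_add_div hn, Nat.div_eq_of_lt i'.2, Nat.add_zero]
      have h7 : (u + (i : ℕ)) % n = i' := by
        rw [h1, Nat.mul_comm, Nat.mul_add_mod, Nat.mod_eq_of_lt i'.2]
      simp only [h6, h7]
    -- split the count
    have hsplit : cnt S u n ≤ (univ.filter fun i : Fin n => (⟨r, hrn⟩ : Fin n) ≤ i ∧ j * n + i ∈ S).card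
        + (univ.filter fun i : Fin n => (i : ℕ) + (n - r) < n ∧ (j + 1) * n + i ∈ S).card := by
      unfold cnt
      set A₁ := (univ.filter fun i : Fin n => (⟨r, hrn⟩ : Fin n) ≤ i ∧ j * n + i ∈ S).image
        (fun i : Fin n => (i : ℕ) - r) with hA₁
      set A₂ := (univ.filter fun i : Fin n => (i : ℕ) + (n - r) < n ∧ (j + 1) * n + i ∈ S).image
        (fun i : Fin n => (i : ℕ) + (n - r)) with hA₂
      have hsub : ((range n).filter fun i => u + i ∈ S) ⊆ A₁ ∪ A₂ := by
        intro i hi
        rw [Finset.mem_filter, Finset.mem_range] at hi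
        rw [Finset.mem_union]
        by_cases hir : r + i < n
        · left
          rw [hA₁, Finset.mem_image]
          refine ⟨⟨r + i, hir⟩, ?_, by simp⟩
          rw [Finset.mem_filter]
          refine ⟨Finset.mem_univ _, ?_, ?_⟩
          · show r ≤ r + i; omega
          · show j * n + (r + i) ∈ S
            have : j * n + (r + i) = u + i := by omega
            rw [this]; exact hi.2
        · right
          rw [hA₂, Finset.mem_image]
          refine ⟨⟨r + i - n, by omega⟩, ?_, ?_⟩
          · rw [Finset.mem_filter]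
            refine ⟨Finset.mem_univ _, ?_, ?_⟩
            · show r + i - n + (n - r) < n; omega
            · show (j + 1) * n + (r + i - n) ∈ S
              have : (j + 1) * n + (r + i - n) = u + i := by
                rw [Nat.succ_mul]; omega
              rw [this]; exact hi.2
          · show r + i - n + (n - r) = i; omega
      refine (Finset.card_le_card hsub).trans ((Finset.card_union_le _ _).trans ?_)
      exact Nat.add_le_add Finset.card_image_le Finset.card_image_le
    rcases le_or_gt m (univ.filter fun i : Fin n => (⟨r, hrn⟩ : Fin n) ≤ i ∧ j * n + i ∈ S).card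
      with h1 | h1
    · obtain ⟨i, hi1, hi2, hi3⟩ := hG1 j ⟨r, hrn⟩ h1
      have hi1' : r ≤ (i : ℕ) := hi1
      have hlt : (i : ℕ) - r < n := lt_of_le_of_lt (Nat.sub_le _ _) i.2
      have h4 : u + ((i : ℕ) - r) = j * n + i := by omega
      have h5 := hval ⟨(i : ℕ) - r, hlt⟩ j i h4 (by
        show u + ((i : ℕ) - r) ∈ S
        rw [h4]; exact hi2)
      have h6 := hi3 hlt
      rw [hidxj] at h6
      exact h6 h5
    · have h2 : m ≤ (univ.filter fun i : Fin n => (i : ℕ) + (n - r) < n ∧ (j + 1) * n + i ∈ S).card := by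
        omega
      have hr0 : 0 < r := by
        by_contra hr0
        have hr0' : r = 0 := by omega
        have : (univ.filter fun i : Fin n => (i : ℕ) + (n - r) < n ∧ (j + 1) * n + i ∈ S) = ∅ := by
          apply Finset.filter_eq_empty_iff.2
          intro i _ h
          have := h.1
          omega
        rw [this, Finset.card_empty] at h2
        have h3 : 2 ^ m = 1 := by
          have : m = 0 := by omega
          rw [this]; rfl
        omega
      have hnr : n - r < n := by omega
      obtain ⟨i, hi1, hi2, hi3⟩ := hG2 (j + 1) ⟨n - r, hnr⟩ h2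
      have hi1' : (i : ℕ) + (n - r) < n := hi1
      have h4 : u + ((i : ℕ) + (n - r)) = (j + 1) * n + i := by
        rw [Nat.succ_mul]; omega
      have h5 := hval ⟨(i : ℕ) + (n - r), hi1'⟩ (j + 1) i h4 (by
        show u + ((i : ℕ) + (n - r)) ∈ S
        rw [h4]; exact hi2)
      have hj1β : j + 1 < β l := by
        have h7 : (j + 1) * n < β l * n := by
          rw [Nat.succ_mul]; omega
        exact lt_of_mul_lt_mul_right h7 (Nat.zero_le n)
      rw [hidx_eq l (j + 1) (by omega) hj1β] at hi3
      exact hi3 h5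
  -- all cylinders are null
  have hnull : ∀ W, μ (C W) = 0 := by
    intro W
    apply Pool.Agent.X84.EmpLim.null_of_windows hT μ huniq x (hCopen W)
    intro ε hε L
    have hev := hS (ε / 2) (by positivity)
    have hev2 := hlen.eventually_ge_atTop (max L (⌈2 / ε⌉₊ + 1))
    obtain ⟨l₀, hl₀⟩ := eventually_atTop.1 (hev.and hev2)
    obtain ⟨l, hl, hwl⟩ := hwinf W l₀
    obtain ⟨hl1, hl2⟩ := hl₀ l hl
    refine ⟨(β l - α l) * n, ?_, α l * n, ?_⟩
    · calc L ≤ β l - α l := (le_max_left _ _).trans hl2
        _ ≤ (β l - α l) * n := Nat.le_mul_of_pos_right _ hn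
    · have hsub : ((range ((β l - α l) * n)).filter fun i => T^[α l * n + i] x ∈ C W) ⊆
          ((range ((β l - α l) * n)).filter fun t => cnt S (α l * n + t) n < 2 * m)
            ∪ Finset.Ico ((β l - α l) * n - n) ((β l - α l) * n) := by
        intro t ht
        rw [Finset.mem_filter, Finset.mem_range] at ht
        rw [Finset.mem_union]
        by_cases h : t + n ≤ (β l - α l) * n
        · left
          rw [Finset.mem_filter, Finset.mem_range]
          refine ⟨ht.1, hkey l t h ?_⟩
          rw [hwl]; exact ht.2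
        · right
          rw [Finset.mem_Ico]; omega
      have h1 := Finset.card_le_card hsub
      have h2 := h1.trans (Finset.card_union_le _ _)
      rw [Nat.card_Ico] at h2
      have h3 : (β l - α l) * n - ((β l - α l) * n - n) ≤ n := by omega
      have h4 : (((range ((β l - α l) * n)).filter fun i => T^[α l * n + i] x ∈ C W).card : ℝ)
          ≤ (((range ((β l - α l) * n)).filter fun t => cnt S (α l * n + t) n < 2 * m).card : ℝ) + n := by
        exact_mod_cast h2.trans (Nat.add_le_add_left h3 _)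
      refine le_trans (le_of_eq ?_) (h4.trans ?_)
      · congr!
      have h5 : (2 / ε : ℝ) ≤ ((β l - α l : ℕ) : ℝ) := by
        have h6 := Nat.le_ceil (2 / ε)
        have h7 : ⌈2 / ε⌉₊ ≤ β l - α l := by
          have := (le_max_right L (⌈2 / ε⌉₊ + 1)).trans hl2
          omega
        have h8 : ((⌈2 / ε⌉₊ : ℕ) : ℝ) ≤ ((β l - α l : ℕ) : ℝ) := by exact_mod_cast h7
        linarith
      have h6 : (n : ℝ) ≤ ε / 2 * ((β l - α l : ℕ) * n : ℝ) := by
        rw [div_le_iff₀ hε] at h5
        have hn' : (0 : ℝ) < n := by exact_mod_cast hn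
        nlinarith
      push_cast at hl1 h6 ⊢
      linarith
  have h1 : μ Set.univ ≤ 0 := by
    refine (measure_mono hCcover).trans ((measure_biUnion_finset_le _ _).trans ?_)
    rw [Finset.sum_eq_zero fun W _ => hnull W]
  rw [measure_univ] at h1
  exact absurd h1 (by simp)

end Pool.Agent.X84.Kill
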